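import Pool.Agent.Lib.MP_10e784_agHG.GG

/-! LEAF GH (uses GG).  The triple sum. -/

set_option autoImplicit false

namespace HYG

open Finset

/-- Proof.  All terms are `≥ 0`, so drop `β = 0`.  For the other `β` (at least `#B - 3`): `∑_{γ ∈ B'} ∑_{δ ∈ B} 1 ≥ (#B - 2) #B` and the character sum is at least `-(#B (5 #B p + C #B² √p))^(1/2) ≥ -(#B √(5p) + √C #B^(3/2) p^(1/4))` (`bilin` with `B1 = B'`, `#B' ≤ #B`).  With `#B ≥ p^(3/4)`:
`√(5p) ≤ #B / 16` and `√C p^(1/4) ≤ #B^(1/2) / 16` for `p ≥ p1` (`#B^(1/2) ≥ p^(3/8)`), and `#B ≥ 100`. -/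
theorem triple : ∃ p0 : ℕ, ∀ (p : ℕ) [Fact p.Prime], p0 ≤ p → ∀ B : Finset (ZMod p), (p : ℝ) ^ (3 / 4 : ℝ) ≤ B.card →
    (B.card : ℝ) ^ 3 / 2 ≤ ∑ β ∈ B.filter (fun x => x ^ 2 ≠ 4), ∑ γ ∈ B.filter (fun x => x ^ 2 ≠ 4),
      ∑ δ ∈ B, (1 + ((quadraticChar (ZMod p) (gm β γ δ) : ℤ) : ℝ)) := by
  classical
  obtain ⟨C, hC, p0, hb⟩ := bilin
  refine ⟨max (max p0 3) (⌈(256 * (5 + C)) ^ 4⌉₊), ?_⟩
  intro p hp hpp B hB
  have hp0 : p0 ≤ p := (le_max_left _ _).trans ((le_max_left _ _).trans hpp)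
  have hR : (256 * (5 + C)) ^ 4 ≤ (p : ℝ) := by
    have h1 : ⌈(256 * (5 + C)) ^ 4⌉₊ ≤ p := (le_max_right _ _).trans hpp
    exact (Nat.le_ceil _).trans (by exact_mod_cast h1)
  have hR1 : (1280 : ℝ) ≤ 256 * (5 + C) := by linarith
  have hppos : (0 : ℝ) ≤ (p : ℝ) := Nat.cast_nonneg p
  -- the fourth root of p
  set r : ℝ := (p : ℝ) ^ (1 / 4 : ℝ) with hr
  have hr0 : 0 ≤ r := Real.rpow_nonneg hppos _
  have hr4 : r ^ 4 = (p : ℝ) := by
    rw [hr, ← Real.rpow_natCast, ← Real.rpow_mul hppos]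
    norm_num
  have hr3 : r ^ 3 = (p : ℝ) ^ (3 / 4 : ℝ) := by
    rw [hr, ← Real.rpow_natCast, ← Real.rpow_mul hppos]
    norm_num
  have hr2 : Real.sqrt p = r ^ 2 := by
    rw [← hr4, show r ^ 4 = (r ^ 2) ^ 2 by ring, Real.sqrt_sq (by positivity)]
  have hrR : 256 * (5 + C) ≤ r := by
    have h1 : (256 * (5 + C)) ^ 4 ≤ r ^ 4 := by rw [hr4]; exact hR
    exact le_of_pow_le_pow_left₀ (by norm_num) hr0 h1
  have hr1 : (1280 : ℝ) ≤ r := hR1.trans hrR
  set N : ℝ := (B.card : ℝ) with hN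
  have hNr : r ^ 3 ≤ N := by rw [hr3]; exact hB
  have hN100 : (100 : ℝ) ≤ N := by
    refine le_trans ?_ hNr
    have h1 : (1280 : ℝ) ^ 3 ≤ r ^ 3 := pow_le_pow_left₀ (by norm_num) hr1 3
    refine le_trans ?_ h1
    norm_num
  have hN0 : (0 : ℝ) ≤ N := by linarith
  -- the error
  have hE : N * (5 * N * p + C * N ^ 2 * Real.sqrt p) ≤ (N ^ 2 / 16) ^ 2 := by
    rw [hr2, ← hr4]
    have h1 : 5 * N ^ 2 * r ^ 4 ≤ 5 * N ^ 3 * r := by
      have : r ^ 4 ≤ N * r := by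
        have := mul_le_mul_of_nonneg_right hNr hr0
        calc r ^ 4 = r ^ 3 * r := by ring
          _ ≤ N * r := this
      calc 5 * N ^ 2 * r ^ 4 ≤ 5 * N ^ 2 * (N * r) := mul_le_mul_of_nonneg_left this (by positivity)
        _ = 5 * N ^ 3 * r := by ring
    have h2 : 256 * (5 * r + C * r ^ 2) ≤ N := by
      refine le_trans ?_ hNr
      have h3 : 256 * (5 + C * r) ≤ r ^ 2 := by
        have h4 : 256 * (5 + C * r) ≤ 256 * (5 + C) * r := by nlinarith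
        have h5 : 256 * (5 + C) * r ≤ r * r := mul_le_mul_of_nonneg_right hrR hr0
        calc 256 * (5 + C * r) ≤ 256 * (5 + C) * r := h4
          _ ≤ r * r := h5
          _ = r ^ 2 := by ring
      calc 256 * (5 * r + C * r ^ 2) = 256 * (5 + C * r) * r := by ring
        _ ≤ r ^ 2 * r := mul_le_mul_of_nonneg_right h3 hr0
        _ = r ^ 3 := by ring
    calc N * (5 * N * r ^ 4 + C * N ^ 2 * r ^ 2) = 5 * N ^ 2 * r ^ 4 + C * N ^ 3 * r ^ 2 := by ring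
      _ ≤ 5 * N ^ 3 * r + C * N ^ 3 * r ^ 2 := by linarith
      _ = N ^ 3 * (256 * (5 * r + C * r ^ 2)) / 256 := by ring
      _ ≤ N ^ 3 * N / 256 := by
        refine div_le_div_of_nonneg_right ?_ (by norm_num)
        exact mul_le_mul_of_nonneg_left h2 (by positivity)
      _ = (N ^ 2 / 16) ^ 2 := by ring
  -- the cardinalities
  set B' : Finset (ZMod p) := B.filter (fun x => x ^ 2 ≠ 4) with hB'
  have hsq : ∀ x : ZMod p, x ^ 2 = 4 → x = 2 ∨ x = -2 := by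
    intro x hx
    have h1 : (x - 2) * (x + 2) = 0 := by
      have : (x - 2) * (x + 2) = x ^ 2 - 4 := by ring
      rw [this, hx, sub_self]
    rcases mul_eq_zero.1 h1 with h | h
    · exact Or.inl (sub_eq_zero.1 h)
    · exact Or.inr (eq_neg_of_add_eq_zero_left h)
  have hB'le : (B'.card : ℝ) ≤ N := by
    rw [hN]
    exact Nat.cast_le.2 (card_filter_le _ _)
  have hB'ge : N - 2 ≤ (B'.card : ℝ) := by
    have h1 : B ⊆ B' ∪ {2, -2} := by
      intro x hx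
      by_cases h : x ^ 2 = 4
      · refine mem_union_right _ ?_
        rw [mem_insert, mem_singleton]
        exact hsq x h
      · exact mem_union_left _ (mem_filter.2 ⟨hx, h⟩)
    have h2 : B.card ≤ B'.card + 2 := (card_le_card h1).trans ((card_union_le _ _).trans
      (Nat.add_le_add_left card_le_two _))
    have h3 : N ≤ (B'.card : ℝ) + 2 := by
      have h4 : ((B.card : ℕ) : ℝ) ≤ ((B'.card + 2 : ℕ) : ℝ) := Nat.cast_le.2 h2
      rwa [Nat.cast_add, Nat.cast_ofNat] at h4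
    linarith
  have hB''ge : N - 3 ≤ ((B'.filter (fun x => x ≠ 0)).card : ℝ) := by
    have h1 : B ⊆ B'.filter (fun x => x ≠ 0) ∪ {2, -2, 0} := by
      intro x hx
      by_cases h : x ^ 2 = 4
      · refine mem_union_right _ ?_
        rw [mem_insert, mem_insert, mem_singleton]
        rcases hsq x h with h' | h'
        · exact Or.inl h'
        · exact Or.inr (Or.inl h')
      · by_cases h0 : x = 0
        · refine mem_union_right _ ?_
          rw [mem_insert, mem_insert, mem_singleton]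
          exact Or.inr (Or.inr h0)
        · exact mem_union_left _ (mem_filter.2 ⟨mem_filter.2 ⟨hx, h⟩, h0⟩)
    have h2 : B.card ≤ (B'.filter (fun x => x ≠ 0)).card + 3 := (card_le_card h1).trans ((card_union_le _ _).trans
      (Nat.add_le_add_left card_le_three _))
    have h3 : N ≤ ((B'.filter (fun x => x ≠ 0)).card : ℝ) + 3 := by
      have h4 : ((B.card : ℕ) : ℝ) ≤ (((B'.filter (fun x => x ≠ 0)).card + 3 : ℕ) : ℝ) := Nat.cast_le.2 h2
      rwa [Nat.cast_add, Nat.cast_ofNat] at h4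
    linarith
  -- every term is nonnegative
  have hterm : ∀ β γ δ : ZMod p, (0 : ℝ) ≤ 1 + ((quadraticChar (ZMod p) (gm β γ δ) : ℤ) : ℝ) := by
    intro β γ δ
    have h1 : (-1 : ℤ) ≤ quadraticChar (ZMod p) (gm β γ δ) := by
      by_cases h0 : gm β γ δ = 0
      · rw [h0, quadraticChar_zero]
        norm_num
      · rcases quadraticChar_dichotomy h0 with h | h
        · rw [h]
          norm_num
        · rw [h]
    have h2 : (-1 : ℝ) ≤ ((quadraticChar (ZMod p) (gm β γ δ) : ℤ) : ℝ) := by exact_mod_cast h1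
    linarith
  have hT : ∀ β ∈ B'.filter (fun x => x ≠ 0), (N - 2) * N - N ^ 2 / 16 ≤
      ∑ γ ∈ B', ∑ δ ∈ B, (1 + ((quadraticChar (ZMod p) (gm β γ δ) : ℤ) : ℝ)) := by
    intro β hβ
    rw [mem_filter, hB', mem_filter] at hβ
    have h1 := hb p hp0 β hβ.2 hβ.1.2 B' B
    have h2 : (∑ γ ∈ B', ∑ δ ∈ B, ((quadraticChar (ZMod p) (gm β γ δ) : ℤ) : ℝ)) ^ 2 ≤ (N ^ 2 / 16) ^ 2 := by
      refine h1.trans (le_trans ?_ hE)
      exact mul_le_mul_of_nonneg_right hB'le (by positivity)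
    have h3 := neg_le_of_abs_le (abs_le_of_sq_le_sq h2 (by positivity))
    have h4 : ∑ γ ∈ B', ∑ δ ∈ B, (1 + ((quadraticChar (ZMod p) (gm β γ δ) : ℤ) : ℝ)) =
        (B'.card : ℝ) * N + ∑ γ ∈ B', ∑ δ ∈ B, ((quadraticChar (ZMod p) (gm β γ δ) : ℤ) : ℝ) := by
      simp only [sum_add_distrib, sum_const, nsmul_eq_mul, mul_one]
      rfl
    rw [h4]
    have h5 : (N - 2) * N ≤ (B'.card : ℝ) * N := mul_le_mul_of_nonneg_right hB'ge hN0
    linarith
  have hc : (0 : ℝ) ≤ (N - 2) * N - N ^ 2 / 16 := by nlinarith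
  calc N ^ 3 / 2 ≤ (N - 3) * ((N - 2) * N - N ^ 2 / 16) := by
        have h1 : (N - 3) * ((N - 2) * N - N ^ 2 / 16) - N ^ 3 / 2 = N * (7 / 16 * N ^ 2 - 77 / 16 * N + 6) := by ring
        have h2 : 0 ≤ N * (7 / 16 * N ^ 2 - 77 / 16 * N + 6) := mul_nonneg hN0 (by nlinarith)
        linarith
    _ ≤ ((B'.filter (fun x => x ≠ 0)).card : ℝ) * ((N - 2) * N - N ^ 2 / 16) := mul_le_mul_of_nonneg_right hB''ge hc
    _ = ∑ _β ∈ B'.filter (fun x => x ≠ 0), ((N - 2) * N - N ^ 2 / 16) := by rw [sum_const, nsmul_eq_mul]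
    _ ≤ ∑ β ∈ B'.filter (fun x => x ≠ 0), ∑ γ ∈ B', ∑ δ ∈ B, (1 + ((quadraticChar (ZMod p) (gm β γ δ) : ℤ) : ℝ)) :=
        sum_le_sum hT
    _ ≤ ∑ β ∈ B', ∑ γ ∈ B', ∑ δ ∈ B, (1 + ((quadraticChar (ZMod p) (gm β γ δ) : ℤ) : ℝ)) := by
        refine sum_le_sum_of_subset_of_nonneg (filter_subset _ _) fun β _ _ => ?_
        exact sum_nonneg fun γ _ => sum_nonneg fun δ _ => hterm β γ δ

end HYG
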