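import Mathlib

/-! LEAF GA (Mathlib only).  Circles over `ZMod p`, `p ≡ 3 (mod 4)`. -/

set_option autoImplicit false

namespace HYG

private theorem GA_le (p : ℕ) [Fact p.Prime] (r s : ZMod p) (hr : r ≠ 0) (hs : s ≠ 0) :
    Nat.card {w : ZMod p × ZMod p // w.1 ^ 2 + w.2 ^ 2 = r} ≤
      Nat.card {w : ZMod p × ZMod p // w.1 ^ 2 + w.2 ^ 2 = s} := by
  obtain ⟨a, b, hab⟩ := ZMod.sq_add_sq p (s / r)
  have h0 : a ^ 2 + b ^ 2 ≠ 0 := by
    rw [hab]
    exact div_ne_zero hs hr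
  refine Nat.card_le_card_of_injective
    (fun w => ⟨(a * w.1.1 - b * w.1.2, b * w.1.1 + a * w.1.2), ?_⟩) ?_
  · have h1 := w.2
    have h2 : (a * w.1.1 - b * w.1.2) ^ 2 + (b * w.1.1 + a * w.1.2) ^ 2 =
        (a ^ 2 + b ^ 2) * (w.1.1 ^ 2 + w.1.2 ^ 2) := by ring
    change (a * w.1.1 - b * w.1.2) ^ 2 + (b * w.1.1 + a * w.1.2) ^ 2 = s
    rw [h2, h1, hab, div_mul_cancel₀ s hr]
  · intro w w' h
    have h1 := congrArg (fun v => v.1.1) h
    have h2 := congrArg (fun v => v.1.2) h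
    have h1' : a * w.1.1 - b * w.1.2 = a * w'.1.1 - b * w'.1.2 := h1
    have h2' : b * w.1.1 + a * w.1.2 = b * w'.1.1 + a * w'.1.2 := h2
    have h3 : (a ^ 2 + b ^ 2) * (w.1.1 - w'.1.1) = 0 := by linear_combination a * h1' + b * h2'
    have h4 : (a ^ 2 + b ^ 2) * (w.1.2 - w'.1.2) = 0 := by linear_combination a * h2' - b * h1'
    have h5 := sub_eq_zero.1 ((mul_eq_zero.1 h3).resolve_left h0)
    have h6 := sub_eq_zero.1 ((mul_eq_zero.1 h4).resolve_left h0)
    exact Subtype.ext (Prod.ext h5 h6)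

private theorem GA_zero (p : ℕ) [Fact p.Prime] (hp : p % 4 = 3) (w : ZMod p × ZMod p) :
    w.1 ^ 2 + w.2 ^ 2 = 0 ↔ w = (0, 0) := by
  constructor
  · intro h
    have hns : ¬ IsSquare (-1 : ZMod p) := by
      rw [ZMod.exists_sq_eq_neg_one_iff]
      simp [hp]
    have h2 : w.2 = 0 := by
      by_contra h2
      apply hns
      refine ⟨w.1 / w.2, ?_⟩
      have h3 : w.1 ^ 2 = - w.2 ^ 2 := by linear_combination h
      rw [div_mul_div_comm, ← sq, ← sq, h3, neg_div, div_self (pow_ne_zero 2 h2)]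
    have h1 : w.1 = 0 := by
      rw [h2] at h
      have h3 : w.1 ^ 2 = 0 := by linear_combination h
      exact pow_eq_zero_iff (two_ne_zero) |>.1 h3
    exact Prod.ext h1 h2
  · rintro rfl
    simp

/-- Proof.  Let `N r` be this number.  (i) `N` is constant on `r ≠ 0`: for `s ≠ 0` there is `(a, b)` with `a² + b² = s / r` (`ZMod.sq_add_sq` or `FiniteField.exists_root_sum_quadratic`; nonzero as `-1` is not a square), and `(x, y) ↦ (a x - b y, b x + a y)` is a bijection from the circle `r` to the circle `s`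
(inverse with `a/(a²+b²), -b/(a²+b²)`).  (ii) The circle 0 is `{(0, 0)}` because `-1` is not a square mod `p` (`ZMod.exists_sq_eq_neg_one_iff`).  (iii) `∑_r N r = p²`, so `(p - 1) N r = p² - 1`.  (Any other proof is fine, e.g. sums of the quadratic character.) -/
theorem circ (p : ℕ) [Fact p.Prime] (hp : p % 4 = 3) (r : ZMod p) (hr : r ≠ 0) :
    Fintype.card {w : ZMod p × ZMod p // w.1 ^ 2 + w.2 ^ 2 = r} = p + 1 := by
  classical
  rw [← Nat.card_eq_fintype_card]
  have hp1 : 1 < p := (Fact.out : p.Prime).one_lt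
  have hN : ∀ s : ZMod p, s ≠ 0 → Nat.card {w : ZMod p × ZMod p // w.1 ^ 2 + w.2 ^ 2 = s} =
      Nat.card {w : ZMod p × ZMod p // w.1 ^ 2 + w.2 ^ 2 = r} := fun s hs =>
    le_antisymm (GA_le p s r hs hr) (GA_le p r s hr hs)
  have h0 : Nat.card {w : ZMod p × ZMod p // w.1 ^ 2 + w.2 ^ 2 = 0} = 1 := by
    have h1 : Nat.card {w : ZMod p × ZMod p // w.1 ^ 2 + w.2 ^ 2 = 0} =
        Nat.card {w : ZMod p × ZMod p // w = (0, 0)} :=
      Nat.card_congr (Equiv.subtypeEquivRight (GA_zero p hp))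
    rw [h1, Nat.card_unique]
  have hsum : ∑ s : ZMod p, Nat.card {w : ZMod p × ZMod p // w.1 ^ 2 + w.2 ^ 2 = s} = p * p := by
    have h1 : ∑ s : ZMod p, Nat.card {w : ZMod p × ZMod p // w.1 ^ 2 + w.2 ^ 2 = s} =
        Nat.card (Σ s : ZMod p, {w : ZMod p × ZMod p // w.1 ^ 2 + w.2 ^ 2 = s}) := by
      rw [Nat.card_sigma]
    rw [h1, Nat.card_congr (Equiv.sigmaFiberEquiv fun w : ZMod p × ZMod p => w.1 ^ 2 + w.2 ^ 2),
      Nat.card_prod, Nat.card_zmod]
  rw [← Finset.add_sum_erase Finset.univ _ (Finset.mem_univ (0 : ZMod p)), h0] at hsum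
  have h2 : ∑ s ∈ (Finset.univ : Finset (ZMod p)).erase 0,
      Nat.card {w : ZMod p × ZMod p // w.1 ^ 2 + w.2 ^ 2 = s} =
        (p - 1) * Nat.card {w : ZMod p × ZMod p // w.1 ^ 2 + w.2 ^ 2 = r} := by
    rw [Finset.sum_congr rfl fun s hs => hN s (Finset.ne_of_mem_erase hs), Finset.sum_const,
      Finset.card_erase_of_mem (Finset.mem_univ _), Finset.card_univ, ZMod.card, smul_eq_mul]
  rw [h2] at hsum
  obtain ⟨m, rfl⟩ : ∃ m, p = m + 1 := ⟨p - 1, by omega⟩
  have h3 : (m + 1 - 1) = m := rfl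
  rw [h3] at hsum
  have h4 : m * Nat.card {w : ZMod (m + 1) × ZMod (m + 1) // w.1 ^ 2 + w.2 ^ 2 = r} =
      m * (m + 1 + 1) := by
    have h5 : (m + 1) * (m + 1) = 1 + m * (m + 1 + 1) := by ring
    omega
  exact Nat.eq_of_mul_eq_mul_left (by omega) h4

/-- the number of nonzero squares is `(p - 1) / 2`; e.g. squaring is 2 to 1 on the units, or `ZMod`/`FiniteField` lemmas; `sq_eq_sq_iff_eq_or_eq_neg` -/
theorem card_sq (p : ℕ) [Fact p.Prime] (hp : p % 4 = 3) :
    2 * Fintype.card {x : ZMod p // x ≠ 0 ∧ IsSquare x} = p - 1 := by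
  classical
  rw [← Nat.card_eq_fintype_card]
  have hp1 : 1 < p := (Fact.out : p.Prime).one_lt
  have hp2 : ringChar (ZMod p) ≠ 2 := by
    rw [ZMod.ringChar_zmod_n]
    omega
  have h0 := quadraticChar_sum_zero hp2
  have h1 : ∀ a : ZMod p, (2 : ℤ) * (if a ≠ 0 ∧ IsSquare a then 1 else 0) =
      quadraticChar (ZMod p) a + 1 - (if a = 0 then 1 else 0) := by
    intro a
    by_cases ha : a = 0
    · simp [ha]
    · by_cases hs : IsSquare a
      · rw [(quadraticChar_one_iff_isSquare ha).2 hs]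
        simp [ha, hs]
      · rw [(quadraticChar_neg_one_iff_not_isSquare).2 hs]
        simp [ha, hs]
  have h2 := Finset.sum_congr rfl (fun a (_ : a ∈ (Finset.univ : Finset (ZMod p))) => h1 a)
  rw [← Finset.mul_sum, Finset.sum_sub_distrib, Finset.sum_add_distrib, h0] at h2
  have h3 : (∑ a : ZMod p, if a ≠ 0 ∧ IsSquare a then (1 : ℤ) else 0) =
      (Nat.card {x : ZMod p // x ≠ 0 ∧ IsSquare x} : ℤ) := by
    rw [Nat.card_eq_fintype_card, Fintype.card_subtype, Finset.card_filter]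
    push_cast
    rfl
  rw [h3] at h2
  simp only [Finset.sum_const, Finset.card_univ, ZMod.card, Finset.sum_ite_eq',
    Finset.mem_univ, if_true, nsmul_eq_mul, mul_one, zero_add] at h2
  omega

end HYG
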