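import Pool.Agent.Lib.MP_10e784_agHG.GDefs
import Pool.Agent.Lib.MP_10e784_agHG.GA

/-! LEAF GI (uses GA.card_sq).  Rescaling. -/

set_option autoImplicit false

namespace HYG

open Finset HYO Classical

private theorem GI_dc {p : ℕ} (l : ZMod p) (v : Fin 3 → ZMod p) :
    dc (fun k => l * v k) = l ^ 2 * dc v := by
  simp only [dc]; ring

private theorem GI_pl {p : ℕ} (l m : ZMod p) (v w : Fin 3 → ZMod p) :
    pl (fun k => l * v k) (fun k => m * w k) = l * m * pl v w := by
  simp only [pl]; ring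

private theorem GI_neg {p : ℕ} [Fact p.Prime] (hp : p % 4 = 3) {l : ZMod p} (hl : l ≠ 0) :
    ¬ IsSquare (-(l ^ 2)) := by
  intro h
  have h1 : IsSquare (-1 : ZMod p) := by
    obtain ⟨a, ha⟩ := h
    refine ⟨a / l, ?_⟩
    field_simp
    linear_combination ha
  exact (ZMod.exists_sq_eq_neg_one_iff.mp h1) hp

/-- two nonzero squares with the same square are equal -/
private theorem GI_inj {p : ℕ} [Fact p.Prime] (hp : p % 4 = 3) {l m : ZMod p} (hm : m ≠ 0)
    (hl2 : IsSquare l) (hm2 : IsSquare m) (h : l ^ 2 = m ^ 2) : l = m := by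
  rcases sq_eq_sq_iff_eq_or_eq_neg.mp h with h | h
  · exact h
  · exfalso
    obtain ⟨a, ha⟩ := hl2
    obtain ⟨b, hb⟩ := hm2
    have hb0 : b ≠ 0 := by
      rintro rfl
      apply hm
      rw [hb]; ring
    have h1 : IsSquare (-(b ^ 2) : ZMod p) := ⟨a, by rw [← ha, h, hb]; ring⟩
    exact GI_neg hp hb0 h1

/-- Proof.  The map `(λ, v) ↦ (i ↦ λ_i v_i)`, `λ_i` nonzero squares, `v` normalised (`dc (v i) = -1`, `2 pl (v i) (v j) ∈ B`), is injective into the good triples: `dc (λ v) = -λ²`, `pl (λ v) (λ' v') = λ λ' pl v v'`; `-λ²` is not a square (`p ≡ 3 mod 4`); `e = λ_i λ_j`.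
Injective: `-λ² = dc` determines `λ` up to sign, and `λ, -λ` cannot both be squares; then `v`.  `8 ((p-1)/2)^3 = (p - 1)^3`, `card_sq`. -/
theorem scale (p : ℕ) [Fact p.Prime] (hp : p % 4 = 3) (B : Finset (ZMod p)) :
    (p - 1) ^ 3 * Fintype.card {v : Fin 3 → Fin 3 → ZMod p // (∀ i, dc (v i) = -1) ∧
      ∀ i j, i ≠ j → 2 * pl (v i) (v j) ∈ B} ≤ 8 * Fintype.card {q : Fin 3 → Fin 3 → ZMod p // Gd B q} := by
  have hc := card_sq p hp
  rw [← Nat.card_eq_fintype_card] at hc
  have hcard : Nat.card ((Fin 3 → {x : ZMod p // x ≠ 0 ∧ IsSquare x}) ×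
      {v : Fin 3 → Fin 3 → ZMod p // (∀ i, dc (v i) = -1) ∧
      ∀ i j, i ≠ j → 2 * pl (v i) (v j) ∈ B}) ≤
      Nat.card {q : Fin 3 → Fin 3 → ZMod p // Gd B q} := by
    have hgood : ∀ x : ((Fin 3 → {x : ZMod p // x ≠ 0 ∧ IsSquare x}) ×
      {v : Fin 3 → Fin 3 → ZMod p // (∀ i, dc (v i) = -1) ∧
      ∀ i j, i ≠ j → 2 * pl (v i) (v j) ∈ B}),
        Gd B (fun i k => (x.1 i).1 * x.2.1 i k) := by
      rintro ⟨l, v, hv1, hv2⟩
      constructor
      · intro i
        show ¬ IsSquare (dc (fun k => (l i).1 * v i k))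
        rw [GI_dc, hv1 i, mul_neg, mul_one]
        exact GI_neg hp (l i).2.1
      · intro i j hij
        refine ⟨(l i).1 * (l j).1, mul_ne_zero (l i).2.1 (l j).2.1, (l i).2.2.mul (l j).2.2, ?_, ?_⟩
        · show _ = dc (fun k => (l i).1 * v i k) * dc (fun k => (l j).1 * v j k)
          rw [GI_dc, GI_dc, hv1 i, hv1 j]
          ring
        · show 2 * pl (fun k => (l i).1 * v i k) (fun k => (l j).1 * v j k) /
            ((l i).1 * (l j).1) ∈ B
          rw [GI_pl]
          have h1 : 2 * ((l i).1 * (l j).1 * pl (v i) (v j)) / ((l i).1 * (l j).1) =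
              2 * pl (v i) (v j) := by
            have hi := (l i).2.1
            have hj := (l j).2.1
            field_simp
          rw [h1]
          exact hv2 i j hij
    refine Nat.card_le_card_of_injective
      (fun x => (⟨fun i k => (x.1 i).1 * x.2.1 i k, hgood x⟩ :
        {q : Fin 3 → Fin 3 → ZMod p // Gd B q})) ?_
    rintro ⟨l, v, hv1, hv2⟩ ⟨m, w, hw1, hw2⟩ h
    have h0 : ∀ i k, (l i).1 * v i k = (m i).1 * w i k := fun i k =>
      congrFun (congrFun (congrArg Subtype.val h) i) k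
    have hlm : ∀ i, (l i).1 = (m i).1 := by
      intro i
      have h1 : dc (fun k => (l i).1 * v i k) = dc (fun k => (m i).1 * w i k) := by
        congr 1
        funext k
        exact h0 i k
      rw [GI_dc, GI_dc, hv1 i, hw1 i] at h1
      refine GI_inj hp (m i).2.1 (l i).2.2 (m i).2.2 ?_
      linear_combination -h1
    have hl : l = m := by
      funext i
      exact Subtype.ext (hlm i)
    have hv : v = w := by
      funext i k
      have h1 := h0 i k
      rw [hlm i] at h1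
      exact mul_left_cancel₀ (m i).2.1 h1
    subst hl
    subst hv
    rfl
  rw [Nat.card_prod, Nat.card_fun, Nat.card_eq_fintype_card (α := Fin 3), Fintype.card_fin] at hcard
  rw [Nat.card_eq_fintype_card (α := {v : Fin 3 → Fin 3 → ZMod p // (∀ i, dc (v i) = -1) ∧
      ∀ i j, i ≠ j → 2 * pl (v i) (v j) ∈ B}), Nat.card_eq_fintype_card
      (α := {q : Fin 3 → Fin 3 → ZMod p // Gd B q})] at hcard
  rw [← hc]
  calc (2 * Nat.card {x : ZMod p // x ≠ 0 ∧ IsSquare x}) ^ 3 *
        Fintype.card {v : Fin 3 → Fin 3 → ZMod p // (∀ i, dc (v i) = -1) ∧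
          ∀ i j, i ≠ j → 2 * pl (v i) (v j) ∈ B}
      = 8 * (Nat.card {x : ZMod p // x ≠ 0 ∧ IsSquare x} ^ 3 *
        Fintype.card {v : Fin 3 → Fin 3 → ZMod p // (∀ i, dc (v i) = -1) ∧
          ∀ i j, i ≠ j → 2 * pl (v i) (v j) ∈ B}) := by ring
    _ ≤ _ := Nat.mul_le_mul_left 8 hcard

end HYG
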