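import Pool.Agent.Lib.MP_10e784_agHG.GE
import Pool.Agent.Lib.MP_10e784_agHG.GH
import Pool.Agent.Lib.MP_10e784_agHG.GI

/-! ASSEMBLY GJ (helper97).  Many good triples. -/

set_option autoImplicit false

namespace HYG

open Finset HYO Classical

theorem many : ∃ c : ℝ, 0 < c ∧ ∃ p0 : ℕ, ∀ (p : ℕ) [Fact p.Prime], p0 ≤ p → p % 4 = 3 → ∀ B : Finset (ZMod p),
    (p : ℝ) ^ (3 / 4 : ℝ) ≤ B.card →
      c * (B.card : ℝ) ^ 3 * (p : ℝ) ^ 6 ≤ (Fintype.card {q : Fin 3 → Fin 3 → ZMod p // Gd B q} : ℝ) := by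
  obtain ⟨p0, hp0⟩ := triple
  refine ⟨1 / 256, by norm_num, max p0 3, ?_⟩
  intro p _ hp h3 B hB
  have h1 := hp0 p ((le_max_left _ _).trans hp) B hB
  have h2 := norm_ge p h3 B
  have h4 := scale p h3 B
  have hp3 : 3 ≤ p := (le_max_right _ _).trans hp
  set N : ℕ := Fintype.card {v : Fin 3 → Fin 3 → ZMod p // (∀ i, dc (v i) = -1) ∧
      ∀ i j, i ≠ j → 2 * pl (v i) (v j) ∈ B} with hN
  set G : ℕ := Fintype.card {q : Fin 3 → Fin 3 → ZMod p // Gd B q} with hG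
  have hpr : (3 : ℝ) ≤ p := by exact_mod_cast hp3
  have h5 : ((p : ℝ) * ((p : ℝ) - 1) * ((p : ℝ) + 1)) * ((B.card : ℝ) ^ 3 / 2) ≤ N := by
    have h6 : (((p : ℤ) * ((p : ℤ) - 1) * ((p : ℤ) + 1) * ∑ β ∈ B.filter (fun x => x ^ 2 ≠ 4),
        ∑ γ ∈ B.filter (fun x => x ^ 2 ≠ 4), ∑ δ ∈ B, (1 + quadraticChar (ZMod p) (gm β γ δ)) : ℤ) : ℝ) ≤ N := by
      exact_mod_cast h2
    push_cast at h6
    refine le_trans (mul_le_mul_of_nonneg_left h1 ?_) h6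
    have : (0 : ℝ) ≤ (p : ℝ) - 1 := by linarith
    positivity
  have h7 : ((p : ℝ) - 1) ^ 3 * N ≤ 8 * G := by
    have h8 : (((p - 1) ^ 3 * N : ℕ) : ℝ) ≤ ((8 * G : ℕ) : ℝ) := by exact_mod_cast h4
    push_cast [Nat.cast_sub (show 1 ≤ p by omega)] at h8
    exact h8
  have h9 : ((p : ℝ) / 2) ≤ (p : ℝ) - 1 := by linarith
  have h10 : ((p : ℝ) / 2) ^ 3 ≤ ((p : ℝ) - 1) ^ 3 := pow_le_pow_left₀ (by positivity) h9 3
  have hB0 : (0 : ℝ) ≤ (B.card : ℝ) ^ 3 := by positivity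
  have h11 : (p : ℝ) ^ 3 / 2 ≤ (p : ℝ) * ((p : ℝ) - 1) * ((p : ℝ) + 1) := by
    nlinarith [mul_nonneg (show (0 : ℝ) ≤ p by linarith) (mul_self_nonneg ((p : ℝ) - 3))]
  have h12 : (p : ℝ) ^ 3 / 2 * ((B.card : ℝ) ^ 3 / 2) ≤ N :=
    (mul_le_mul_of_nonneg_right h11 (by positivity)).trans h5
  have h13 : ((p : ℝ) / 2) ^ 3 * ((p : ℝ) ^ 3 / 2 * ((B.card : ℝ) ^ 3 / 2)) ≤ 8 * G := by
    refine le_trans ?_ h7
    exact mul_le_mul h10 h12 (by positivity) (le_trans (by positivity) h10)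
  nlinarith [h13]

end HYG
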