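import Pool.Agent.Lib.MP_10e784_agH.Defs
import Pool.Agent.Lib.MP_10e784_agHG.GJ

/-! Block G, conclusion (helper97): the interface `HY.FactG` from `HY.FactK`. -/

set_option autoImplicit false

namespace HYG

open Finset HY MWS

private theorem GK_nz {p : ℕ} [Fact p.Prime] {s : ZMod p} (hs : s ≠ 0) (a b : ZMod p) :
    nz (s ^ 4 * a) (s ^ 6 * b) = nz a b := by
  unfold nz
  refine (Nat.card_congr ?_).symm
  refine Equiv.subtypeEquiv
    { toFun := fun z => (s ^ 2 * z.1, s ^ 3 * z.2)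
      invFun := fun z => ((s⁻¹) ^ 2 * z.1, (s⁻¹) ^ 3 * z.2)
      left_inv := fun z => by
        refine Prod.ext ?_ ?_
        · show (s⁻¹) ^ 2 * (s ^ 2 * z.1) = z.1
          rw [← mul_assoc, ← mul_pow, inv_mul_cancel₀ hs, one_pow, one_mul]
        · show (s⁻¹) ^ 3 * (s ^ 3 * z.2) = z.2
          rw [← mul_assoc, ← mul_pow, inv_mul_cancel₀ hs, one_pow, one_mul]
      right_inv := fun z => by
        refine Prod.ext ?_ ?_
        · show s ^ 2 * ((s⁻¹) ^ 2 * z.1) = z.1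
          rw [← mul_assoc, ← mul_pow, mul_inv_cancel₀ hs, one_pow, one_mul]
        · show s ^ 3 * ((s⁻¹) ^ 3 * z.2) = z.2
          rw [← mul_assoc, ← mul_pow, mul_inv_cancel₀ hs, one_pow, one_mul] } ?_
  intro z
  show z.2 ^ 2 = z.1 ^ 3 + a * z.1 + b ↔
    (s ^ 3 * z.2) ^ 2 = (s ^ 2 * z.1) ^ 3 + s ^ 4 * a * (s ^ 2 * z.1) + s ^ 6 * b
  have e : (s ^ 2 * z.1) ^ 3 + s ^ 4 * a * (s ^ 2 * z.1) + s ^ 6 * b = s ^ 6 * (z.1 ^ 3 + a * z.1 + b) := by ring
  have e' : (s ^ 3 * z.2) ^ 2 = s ^ 6 * z.2 ^ 2 := by ring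
  rw [e, e']
  constructor
  · intro h
    rw [h]
  · intro h
    exact mul_left_cancel₀ (pow_ne_zero 6 hs) h

private theorem GK_scale {p U : ℕ} [Fact p.Prime] {s : ZMod p} (hs : s ≠ 0) {a b : ZMod p} (h : Gk p U 1 (a, b)) :
    Gk p U 1 (s ^ 4 * a, s ^ 6 * b) := by
  obtain ⟨h1, l, hl, hU, hU', hd⟩ := h
  refine ⟨?_, l, hl, hU, hU', ?_⟩
  · show 4 * (s ^ 4 * a) ^ 3 + 27 * (s ^ 6 * b) ^ 2 ≠ 0
    have e : 4 * (s ^ 4 * a) ^ 3 + 27 * (s ^ 6 * b) ^ 2 = s ^ 12 * (4 * a ^ 3 + 27 * b ^ 2) := by ring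
    rw [e]
    exact mul_ne_zero (pow_ne_zero _ hs) h1
  · show l ^ 1 ∣ nz (s ^ 4 * a) (s ^ 6 * b) + 1
    rw [GK_nz hs]
    exact hd

theorem good_of {p U : ℕ} [Fact p.Prime] (B : Finset (ZMod p)) (hB : ∀ b ∈ B, b ∈ GB p U)
    (q : Fin 3 → Fin 3 → ZMod p) (h : Gd B q) : good p U q := by
  have hdc : ∀ v : Fin 3 → ZMod p, HYO.dc v = dq v := by
    intro v
    simp only [HYO.dc, dq]
    ring
  have hpl : ∀ v w : Fin 3 → ZMod p, 2 * HYO.pl v w = bq v w := by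
    intro v w
    simp only [HYO.pl, bq]
    ring
  refine ⟨fun i => ?_, fun i j hij => ?_⟩
  · rw [← hdc]
    exact h.1 i
  · obtain ⟨e, he0, ⟨s, hs⟩, he2, hb⟩ := h.2 i j (ne_of_lt hij)
    rw [hdc, hdc] at he2
    rw [hpl] at hb
    have hs0 : s ≠ 0 := by
      rintro rfl
      exact he0 (by rw [hs, mul_zero])
    have h1 := GK_scale hs0 (hB _ hb)
    have hbe : bq (q i) (q j) = e * (bq (q i) (q j) / e) := by field_simp
    set b : ZMod p := bq (q i) (q j) / e with hbdef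
    have e1 : Aq (q i) (q j) = s ^ 4 * (81 - 27 * b ^ 2) := by
      rw [Aq, ← he2, hbe, hs]
      ring
    have e2 : Bq (q i) (q j) = s ^ 6 * (243 * b - 54 * b ^ 3) := by
      rw [Bq, ← he2, hbe, hs]
      ring
    rw [e1, e2]
    exact h1

theorem factG (hK : FactK) : FactG := by
  classical
  obtain ⟨c, hc, K, hK⟩ := hK
  obtain ⟨c', hc', p0, hG⟩ := many
  -- for large p: c p / log p ≥ p ^ (3 / 4)
  have hlim : ∃ p1 : ℕ, ∀ p : ℕ, p1 ≤ p → (p : ℝ) ^ (3 / 4 : ℝ) ≤ c * p / Real.log p := by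
    have h1 : (fun x : ℝ => Real.log x) =o[Filter.atTop] fun x : ℝ => x ^ (1 / 4 : ℝ) :=
      isLittleO_log_rpow_atTop (by norm_num)
    have h2 := (h1.def hc).and (Filter.eventually_gt_atTop (1 : ℝ))
    have h3 := tendsto_natCast_atTop_atTop (R := ℝ) |>.eventually h2
    obtain ⟨p1, hp1⟩ := Filter.eventually_atTop.1 h3
    refine ⟨p1, fun p hp => ?_⟩
    obtain ⟨h4, h5⟩ := hp1 p hp
    have hl : 0 < Real.log (p : ℝ) := Real.log_pos h5
    have hp0 : (0 : ℝ) < p := by linarith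
    rw [Real.norm_of_nonneg hl.le, Real.norm_of_nonneg (Real.rpow_nonneg hp0.le _)] at h4
    rw [le_div_iff₀ hl]
    calc (p : ℝ) ^ (3 / 4 : ℝ) * Real.log p ≤ (p : ℝ) ^ (3 / 4 : ℝ) * (c * (p : ℝ) ^ (1 / 4 : ℝ)) :=
          mul_le_mul_of_nonneg_left h4 (Real.rpow_nonneg hp0.le _)
      _ = c * ((p : ℝ) ^ (3 / 4 : ℝ) * (p : ℝ) ^ (1 / 4 : ℝ)) := by ring
      _ = c * p := by
        rw [← Real.rpow_add hp0]
        norm_num
  obtain ⟨p1, hp1⟩ := hlim
  refine ⟨c' * c ^ 3, by positivity, max (max K 2) (max p0 p1), ?_⟩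
  intro U hU p hp hp4 hUp hlog
  have : Fact p.Prime := ⟨hp⟩
  set M : ℕ := max (max K 2) (max p0 p1) with hM
  have hKM : K ≤ M := (le_max_left _ _).trans (le_max_left _ _)
  have hM2 : 2 ≤ M := (le_max_right _ _).trans (le_max_left _ _)
  have hU2 : 2 ≤ U := hM2.trans hU
  have hUK : U ^ K ≤ p := (Nat.pow_le_pow_right (by omega) hKM).trans hUp
  have hMp : M ≤ p := by
    have h1 : M < U ^ M := Nat.lt_pow_self (by omega)
    omega
  have hlog0 : 0 ≤ Real.log (p : ℝ) := Real.log_natCast_nonneg p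
  have hlogK : (K : ℝ) * Real.log p ≤ U :=
    (mul_le_mul_of_nonneg_right (by exact_mod_cast hKM) hlog0).trans hlog
  have h1 := hK U (hKM.trans hU) p hp hp4 hUK hlogK
  set B : Finset (ZMod p) := Finset.univ.filter fun b => b ∈ GB p U with hB
  have hBc : Nat.card (GB p U) = B.card := by
    rw [Nat.card_eq_fintype_card, hB, ← Fintype.card_subtype]
  rw [hBc] at h1
  have h2 : (p : ℝ) ^ (3 / 4 : ℝ) ≤ B.card :=
    (hp1 p (((le_max_right _ _).trans (le_max_right _ _)).trans hMp)).trans h1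
  have h3 := hG p (((le_max_left _ _).trans (le_max_right _ _)).trans hMp) hp4 B h2
  have h4 : Fintype.card {q : Fin 3 → Fin 3 → ZMod p // Gd B q} ≤
      Nat.card {v : Fin 3 × Fin 3 → ZMod p // good p U (fun i j => v (i, j))} := by
    rw [← Nat.card_eq_fintype_card]
    refine Nat.card_le_card_of_injective (fun q => ⟨fun a => q.1 a.1 a.2, ?_⟩) ?_
    · exact good_of B (fun b hb => (mem_filter.1 hb).2) q.1 q.2
    · intro q q' h
      have h5 : (fun a : Fin 3 × Fin 3 => q.1 a.1 a.2) = fun a => q'.1 a.1 a.2 := congrArg Subtype.val h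
      refine Subtype.ext ?_
      funext i j
      exact congrFun h5 (i, j)
  have hlpos : 0 < Real.log (p : ℝ) := Real.log_pos (by
    have : 2 ≤ p := hp.two_le
    exact_mod_cast (by omega : 1 < p))
  have hp0 : (0 : ℝ) < p := by exact_mod_cast hp.pos
  have h6 : (c * p / Real.log p) ^ 3 ≤ (B.card : ℝ) ^ 3 := pow_le_pow_left₀ (by positivity) h1 3
  calc c' * c ^ 3 * (p : ℝ) ^ 9 / Real.log p ^ 3 = c' * (c * p / Real.log p) ^ 3 * (p : ℝ) ^ 6 := by
        field_simp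
    _ ≤ c' * (B.card : ℝ) ^ 3 * (p : ℝ) ^ 6 := by
        exact mul_le_mul_of_nonneg_right (mul_le_mul_of_nonneg_left h6 hc'.le) (by positivity)
    _ ≤ (Fintype.card {q : Fin 3 → Fin 3 → ZMod p // Gd B q} : ℝ) := h3
    _ ≤ (Nat.card {v : Fin 3 × Fin 3 → ZMod p // good p U (fun i j => v (i, j))} : ℝ) := by exact_mod_cast h4

end HYG
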