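import Mathlib

/-! LEAF GB (Mathlib only).  A line and a circle. -/

set_option autoImplicit false

namespace HYG

open Classical in
/-- Proof.  `m = u.1² + u.2² ≠ 0`.  The linear map `w ↦ (u.1 w.1 + u.2 w.2, u.1 w.2 - u.2 w.1) = (t, s)` is bijective (determinant `m`), and `m (w.1² + w.2²) = t² + s²`.  So the set is in bijection with `{s | s² = m R - t²}`, which has `χ(m R - t²) + 1` elements (`quadraticChar_card_sqrts`, or `quadraticChar` cases). -/
theorem line_circ (p : ℕ) [Fact p.Prime] (hp : p ≠ 2) (u : ZMod p × ZMod p) (R t : ZMod p)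
    (hu : u.1 ^ 2 + u.2 ^ 2 ≠ 0) :
    (Fintype.card {w : ZMod p × ZMod p // w.1 ^ 2 + w.2 ^ 2 = R ∧ u.1 * w.1 + u.2 * w.2 = t} : ℤ) =
      1 + quadraticChar (ZMod p) ((u.1 ^ 2 + u.2 ^ 2) * R - t ^ 2) := by
  have hm : u.1 ^ 2 + u.2 ^ 2 ≠ 0 := hu
  have e : {w : ZMod p × ZMod p // w.1 ^ 2 + w.2 ^ 2 = R ∧ u.1 * w.1 + u.2 * w.2 = t} ≃
      {x : ZMod p // x ^ 2 = (u.1 ^ 2 + u.2 ^ 2) * R - t ^ 2} :=
    { toFun := fun w => ⟨u.1 * w.1.2 - u.2 * w.1.1, by
        obtain ⟨⟨a, b⟩, h1, h2⟩ := w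
        simp only at h1 h2 ⊢
        rw [← h1, ← h2]
        ring⟩
      invFun := fun x => ⟨((u.1 * t - u.2 * x.1) / (u.1 ^ 2 + u.2 ^ 2),
          (u.2 * t + u.1 * x.1) / (u.1 ^ 2 + u.2 ^ 2)), by
        obtain ⟨x, hx⟩ := x
        simp only
        constructor
        · rw [div_pow, div_pow, ← add_div, div_eq_iff (pow_ne_zero 2 hm)]
          linear_combination (u.1 ^ 2 + u.2 ^ 2) * hx
        · rw [mul_div_assoc', mul_div_assoc', ← add_div, div_eq_iff hm]
          ring⟩
      left_inv := by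
        rintro ⟨⟨a, b⟩, h1, h2⟩
        simp only at h1 h2
        apply Subtype.ext
        simp only
        refine Prod.ext ?_ ?_
        · simp only
          rw [div_eq_iff hm, ← h2]
          ring
        · simp only
          rw [div_eq_iff hm, ← h2]
          ring
      right_inv := by
        rintro ⟨x, hx⟩
        apply Subtype.ext
        simp only
        rw [mul_div_assoc', mul_div_assoc', ← sub_div, div_eq_iff hm]
        ring }
  have hF : ringChar (ZMod p) ≠ 2 := by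
    rw [ZMod.ringChar_zmod_n]
    exact hp
  have h1 := quadraticChar_card_sqrts hF ((u.1 ^ 2 + u.2 ^ 2) * R - t ^ 2)
  rw [Fintype.card_congr e, add_comm (1 : ℤ), ← h1]
  congr 1
  rw [Set.toFinset_card]
  exact Fintype.card_congr (Equiv.refl _)

end HYG
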