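import Pool.Agent.Lib.MP_10e784_agHG.GDefs
import Pool.Agent.Lib.MP_10e784_agHG.GA
import Pool.Agent.Lib.MP_10e784_agHG.GB

/-! LEAF GC (uses GA, GB).  The number of pairs with given products. -/

set_option autoImplicit false

namespace HYG

open Finset HYO Classical

private theorem GC_two {p : ℕ} [Fact p.Prime] (hp : p % 4 = 3) : (2 : ZMod p) ≠ 0 := by
  intro h
  have h1 : ((2 : ℕ) : ZMod p) = 0 := by exact_mod_cast h
  rw [ZMod.natCast_eq_zero_iff] at h1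
  have h2 := Nat.le_of_dvd (by norm_num) h1
  omega

private theorem GC_inv {p : ℕ} [Fact p.Prime] (h2 : (2 : ZMod p) ≠ 0) (β : ZMod p) {v : Fin 3 → ZMod p}
    (hv : 2 * pl v0 v = β) : v 0 + v 2 = - β / 2 := by
  have h1 : pl v0 v = - (v 0 + v 2) := by
    simp only [pl, v0, Matrix.cons_val_zero, Matrix.cons_val_one, Matrix.cons_val]
    field_simp
    ring
  rw [h1] at hv
  rw [← hv]
  field_simp

private theorem GC_circ {p : ℕ} [Fact p.Prime] (h2 : (2 : ZMod p) ≠ 0) (β : ZMod p) {v : Fin 3 → ZMod p}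
    (hd : dc v = -1) (hv : 2 * pl v0 v = β) : v 1 ^ 2 + (v 0 - v 2) ^ 2 = β ^ 2 / 4 - 1 := by
  have h1 := GC_inv h2 β hv
  have h3 : dc v = v 1 ^ 2 + (v 0 - v 2) ^ 2 - (v 0 + v 2) ^ 2 := by
    simp only [dc]
    ring
  rw [h3, h1] at hd
  have h4 : (4 : ZMod p) ≠ 0 := by
    have h5 : (4 : ZMod p) = 2 * 2 := by norm_num
    rw [h5]
    exact mul_ne_zero h2 h2
  have h5 : (-β / 2) ^ 2 = β ^ 2 / 4 := by
    field_simp
    ring
  rw [h5] at hd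
  linear_combination hd

private theorem GC_t {p : ℕ} [Fact p.Prime] (h2 : (2 : ZMod p) ≠ 0) {β γ δ : ZMod p} {v v' : Fin 3 → ZMod p}
    (hv : 2 * pl v0 v = β) (hv' : 2 * pl v0 v' = γ) (h : 2 * pl v v' = δ) :
    v 1 * v' 1 + (v 0 - v 2) * (v' 0 - v' 2) = δ / 2 + β * γ / 4 := by
  have h1 := GC_inv h2 β hv
  have h3 := GC_inv h2 γ hv'
  have h4 : (4 : ZMod p) ≠ 0 := by
    have h5 : (4 : ZMod p) = 2 * 2 := by norm_num
    rw [h5]
    exact mul_ne_zero h2 h2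
  have h5 : pl v v' = v 1 * v' 1 + (v 0 - v 2) * (v' 0 - v' 2) - (v 0 + v 2) * (v' 0 + v' 2) := by
    simp only [pl]
    ring
  rw [h5, h1, h3] at h
  rw [← h]
  field_simp
  ring

/-- the form with the given coordinates -/
private def GC_v {p : ℕ} [Fact p.Prime] (β : ZMod p) (w : ZMod p × ZMod p) : Fin 3 → ZMod p :=
  ![(-β / 2 + w.2) / 2, w.1, (-β / 2 - w.2) / 2]

private theorem GC_v_pl {p : ℕ} [Fact p.Prime] (h2 : (2 : ZMod p) ≠ 0) (β : ZMod p) (w : ZMod p × ZMod p) :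
    2 * pl v0 (GC_v β w) = β := by
  simp only [pl, v0, GC_v, Matrix.cons_val_zero, Matrix.cons_val_one, Matrix.cons_val]
  field_simp
  ring

private theorem GC_v_dc {p : ℕ} [Fact p.Prime] (h2 : (2 : ZMod p) ≠ 0) {β : ZMod p} {w : ZMod p × ZMod p}
    (hw : w.1 ^ 2 + w.2 ^ 2 = β ^ 2 / 4 - 1) : dc (GC_v β w) = -1 := by
  have h4 : (4 : ZMod p) ≠ 0 := by
    have h5 : (4 : ZMod p) = 2 * 2 := by norm_num
    rw [h5]
    exact mul_ne_zero h2 h2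
  have h1 : dc (GC_v β w) = w.1 ^ 2 + w.2 ^ 2 - β ^ 2 / 4 := by
    simp only [dc, GC_v, Matrix.cons_val_zero, Matrix.cons_val_one, Matrix.cons_val]
    field_simp
    ring
  rw [h1, hw]
  ring

private theorem GC_v_t {p : ℕ} [Fact p.Prime] (h2 : (2 : ZMod p) ≠ 0) {β γ δ : ZMod p} {w w' : ZMod p × ZMod p}
    (h : w.1 * w'.1 + w.2 * w'.2 = δ / 2 + β * γ / 4) : 2 * pl (GC_v β w) (GC_v γ w') = δ := by
  have h4 : (4 : ZMod p) ≠ 0 := by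
    have h5 : (4 : ZMod p) = 2 * 2 := by norm_num
    rw [h5]
    exact mul_ne_zero h2 h2
  have h1 : pl (GC_v β w) (GC_v γ w') = w.1 * w'.1 + w.2 * w'.2 - β * γ / 4 := by
    simp only [pl, GC_v, Matrix.cons_val_zero, Matrix.cons_val_one, Matrix.cons_val]
    field_simp
    ring
  rw [h1, h]
  field_simp
  ring

private theorem GC_v_left {p : ℕ} [Fact p.Prime] (h2 : (2 : ZMod p) ≠ 0) {β : ZMod p} {v : Fin 3 → ZMod p}
    (hv : 2 * pl v0 v = β) : GC_v β (v 1, v 0 - v 2) = v := by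
  have h1 := GC_inv h2 β hv
  funext i
  fin_cases i
  · show (-β / 2 + (v 0 - v 2)) / 2 = v 0
    rw [← h1]
    field_simp
    ring
  · rfl
  · show (-β / 2 - (v 0 - v 2)) / 2 = v 2
    rw [← h1]
    field_simp
    ring

private theorem GC_v_right {p : ℕ} [Fact p.Prime] (h2 : (2 : ZMod p) ≠ 0) (β : ZMod p) (w : ZMod p × ZMod p) :
    (GC_v β w 1, GC_v β w 0 - GC_v β w 2) = w := by
  refine Prod.ext rfl ?_
  show (-β / 2 + w.2) / 2 - (-β / 2 - w.2) / 2 = w.2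
  field_simp
  ring

/-- Proof.  Coordinates: `v = (a, b, c) = (v 0, v 1, v 2)`, `s = a + c`, `u = a - c`: `dc v = b² - 4ac = b² + u² - s²`, `pl v0 v = -(a + c) = -s`, `pl v v' = b b' + u u' - s s'`.  So `dc v2 = -1`, `2 pl v0 v2 = β` mean: `s2 = -β/2`, `(b2, u2)` on the circle of radius `m = β²/4 - 1 ≠ 0`;
similarly `v3` with `R = γ²/4 - 1`; `2 pl v2 v3 = δ` means `b2 b3 + u2 u3 = t := δ/2 + s2 s3 = δ/2 + βγ/4`.  For every one of the `p + 1` points `(b2, u2)` (GA) there are `1 + χ(m R - t²)` points `(b3, u3)` (GB), and `m R - t² = gm β γ δ / 4`; `χ(x / 4) = χ(x)`. -/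
theorem fibre (p : ℕ) [Fact p.Prime] (hp : p % 4 = 3) (β γ δ : ZMod p) (hβ : β ^ 2 ≠ 4) (hγ : γ ^ 2 ≠ 4) :
    (Fintype.card {v : (Fin 3 → ZMod p) × (Fin 3 → ZMod p) // dc v.1 = -1 ∧ dc v.2 = -1 ∧ 2 * pl v0 v.1 = β ∧
      2 * pl v0 v.2 = γ ∧ 2 * pl v.1 v.2 = δ} : ℤ) = (p + 1) * (1 + quadraticChar (ZMod p) (gm β γ δ)) := by
  have h2 := GC_two hp
  have h4 : (4 : ZMod p) ≠ 0 := by
    have h5 : (4 : ZMod p) = 2 * 2 := by norm_num
    rw [h5]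
    exact mul_ne_zero h2 h2
  have hp2 : p ≠ 2 := by
    rintro rfl
    omega
  have hm : β ^ 2 / 4 - 1 ≠ 0 := by
    intro h
    apply hβ
    have h5 := sub_eq_zero.1 h
    rwa [div_eq_iff h4, one_mul] at h5
  let E : {v : (Fin 3 → ZMod p) × (Fin 3 → ZMod p) // dc v.1 = -1 ∧ dc v.2 = -1 ∧ 2 * pl v0 v.1 = β ∧
      2 * pl v0 v.2 = γ ∧ 2 * pl v.1 v.2 = δ} ≃
      (u : {u : ZMod p × ZMod p // u.1 ^ 2 + u.2 ^ 2 = β ^ 2 / 4 - 1}) ×
        {w : ZMod p × ZMod p // w.1 ^ 2 + w.2 ^ 2 = γ ^ 2 / 4 - 1 ∧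
          u.1.1 * w.1 + u.1.2 * w.2 = δ / 2 + β * γ / 4} :=
    { toFun := fun v => ⟨⟨(v.1.1 1, v.1.1 0 - v.1.1 2), GC_circ h2 β v.2.1 v.2.2.2.1⟩,
        ⟨(v.1.2 1, v.1.2 0 - v.1.2 2), GC_circ h2 γ v.2.2.1 v.2.2.2.2.1, GC_t h2 v.2.2.2.1 v.2.2.2.2.1 v.2.2.2.2.2⟩⟩
      invFun := fun x => ⟨(GC_v β x.1.1, GC_v γ x.2.1), GC_v_dc h2 x.1.2, GC_v_dc h2 x.2.2.1, GC_v_pl h2 β _,
        GC_v_pl h2 γ _, GC_v_t h2 x.2.2.2⟩
      left_inv := by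
        rintro ⟨⟨v, v'⟩, h1, h3, h5, h6, h7⟩
        refine Subtype.ext (Prod.ext ?_ ?_)
        · exact GC_v_left h2 h5
        · exact GC_v_left h2 h6
      right_inv := by
        rintro ⟨⟨u, hu⟩, ⟨w, hw⟩⟩
        have e1 := GC_v_right h2 β u
        have e2 := GC_v_right h2 γ w
        refine Sigma.ext (Subtype.ext e1) ?_
        have h5 : ∀ (u' : {u : ZMod p × ZMod p // u.1 ^ 2 + u.2 ^ 2 = β ^ 2 / 4 - 1}) (h : u' = ⟨u, hu⟩)
            (w' : {w : ZMod p × ZMod p // w.1 ^ 2 + w.2 ^ 2 = γ ^ 2 / 4 - 1 ∧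
              u'.1.1 * w.1 + u'.1.2 * w.2 = δ / 2 + β * γ / 4}), w'.1 = w → HEq w' (⟨w, hw⟩ : {w : ZMod p × ZMod p //
                w.1 ^ 2 + w.2 ^ 2 = γ ^ 2 / 4 - 1 ∧ u.1 * w.1 + u.2 * w.2 = δ / 2 + β * γ / 4}) := by
          rintro _ rfl w' h
          exact heq_of_eq (Subtype.ext h)
        exact h5 _ (Subtype.ext e1) _ e2 }
  rw [Fintype.card_congr E, Fintype.card_sigma, Nat.cast_sum]
  have h6 : ∀ u : {u : ZMod p × ZMod p // u.1 ^ 2 + u.2 ^ 2 = β ^ 2 / 4 - 1},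
      (Fintype.card {w : ZMod p × ZMod p // w.1 ^ 2 + w.2 ^ 2 = γ ^ 2 / 4 - 1 ∧
          u.1.1 * w.1 + u.1.2 * w.2 = δ / 2 + β * γ / 4} : ℤ) = 1 + quadraticChar (ZMod p) (gm β γ δ) := by
    intro u
    rw [line_circ p hp2 u.1 _ _ (by rw [u.2]; exact hm), u.2]
    have h7 : (β ^ 2 / 4 - 1) * (γ ^ 2 / 4 - 1) - (δ / 2 + β * γ / 4) ^ 2 = (1 / 2) ^ 2 * gm β γ δ := by
      simp only [gm]
      field_simp
      ring
    rw [h7, map_mul, quadraticChar_sq_one' (one_div_ne_zero h2), one_mul]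
  rw [Finset.sum_congr rfl fun u _ => h6 u, Finset.sum_const, Finset.card_univ, circ p hp _ hm, nsmul_eq_mul]
  push_cast
  ring

end HYG
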