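import Pool.Agent.Lib.MP_10e784_agHG.GDefs

/-! LEAF GD.  The forms of discriminant -1: transitivity and their number. -/

set_option autoImplicit false

namespace HYG

open Finset HYO Classical

private theorem GD_two (p : ℕ) [Fact p.Prime] (hp : p % 4 = 3) : (2 : ZMod p) ≠ 0 := by
  intro h
  have h1 : ((2 : ℕ) : ZMod p) = 0 := by exact_mod_cast h
  rw [ZMod.natCast_eq_zero_iff] at h1
  have h2 := Nat.le_of_dvd (by norm_num) h1
  interval_cases p <;> omega

private theorem GD_ne (p : ℕ) [Fact p.Prime] (hp : p % 4 = 3) (v : Fin 3 → ZMod p) (hv : dc v = -1) : v 0 ≠ 0 := by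
  intro h0
  have h1 : IsSquare (-1 : ZMod p) := by
    refine ⟨v 1, ?_⟩
    rw [← hv]
    unfold dc
    rw [h0]
    ring
  exact (ZMod.exists_sq_eq_neg_one_iff.1 h1) hp

/-- Proof.  With `a = v 0, b = v 1`: `b² - 4 a c = -1` and `-1` is not a square, so `a ≠ 0` (coefficients here: `v 0` is the coefficient of `z²`; the formulas are symmetric).  `Φ (A, B, C) = (2 a A, 2 b A + B, (b² A + b B + C) / (2 a))`: bijective (explicit inverse: `A = A'/(2a)`, `B = B' - 2bA`, `C = 2 a C' - b² A - b B`), additive is not needed;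
`dc (Φ w) = dc w` and `pl (Φ w) (Φ w') = pl w w'` by `ring` / `field_simp`; `Φ v0 = (a, b, (b² + 1)/(4a)) = v`. -/
theorem trans (p : ℕ) [Fact p.Prime] (hp : p % 4 = 3) (v : Fin 3 → ZMod p) (hv : dc v = -1) :
    ∃ Φ : (Fin 3 → ZMod p) ≃ (Fin 3 → ZMod p), Φ v0 = v ∧ (∀ w, dc (Φ w) = dc w) ∧
      ∀ w w', pl (Φ w) (Φ w') = pl w w' := by
  have h2 := GD_two p hp
  have ha := GD_ne p hp v hv
  have hv' : v 1 ^ 2 - 4 * v 0 * v 2 = -1 := hv
  let Φ : (Fin 3 → ZMod p) ≃ (Fin 3 → ZMod p) :=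
    { toFun := fun w => ![2 * v 0 * w 0, 2 * v 1 * w 0 + w 1, (v 1 ^ 2 * w 0 + v 1 * w 1 + w 2) / (2 * v 0)]
      invFun := fun w => ![w 0 / (2 * v 0), w 1 - 2 * v 1 * (w 0 / (2 * v 0)),
        2 * v 0 * w 2 - v 1 ^ 2 * (w 0 / (2 * v 0)) - v 1 * (w 1 - 2 * v 1 * (w 0 / (2 * v 0)))]
      left_inv := by
        intro w
        funext i
        fin_cases i
        · show 2 * v 0 * w 0 / (2 * v 0) = w 0
          field_simp
        · show 2 * v 1 * w 0 + w 1 - 2 * v 1 * (2 * v 0 * w 0 / (2 * v 0)) = w 1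
          field_simp
          ring
        · show 2 * v 0 * ((v 1 ^ 2 * w 0 + v 1 * w 1 + w 2) / (2 * v 0)) -
            v 1 ^ 2 * (2 * v 0 * w 0 / (2 * v 0)) -
            v 1 * (2 * v 1 * w 0 + w 1 - 2 * v 1 * (2 * v 0 * w 0 / (2 * v 0))) = w 2
          field_simp
          ring
      right_inv := by
        intro w
        funext i
        fin_cases i
        · show 2 * v 0 * (w 0 / (2 * v 0)) = w 0
          field_simp
        · show 2 * v 1 * (w 0 / (2 * v 0)) + (w 1 - 2 * v 1 * (w 0 / (2 * v 0))) = w 1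
          ring
        · show (v 1 ^ 2 * (w 0 / (2 * v 0)) + v 1 * (w 1 - 2 * v 1 * (w 0 / (2 * v 0))) +
            (2 * v 0 * w 2 - v 1 ^ 2 * (w 0 / (2 * v 0)) - v 1 * (w 1 - 2 * v 1 * (w 0 / (2 * v 0))))) /
              (2 * v 0) = w 2
          field_simp
          ring }
  have hΦ0 : ∀ w, Φ w 0 = 2 * v 0 * w 0 := fun w => rfl
  have hΦ1 : ∀ w, Φ w 1 = 2 * v 1 * w 0 + w 1 := fun w => rfl
  have hΦ2 : ∀ w, Φ w 2 = (v 1 ^ 2 * w 0 + v 1 * w 1 + w 2) / (2 * v 0) := fun w => rfl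
  refine ⟨Φ, ?_, ?_, ?_⟩
  · funext i
    fin_cases i
    · show 2 * v 0 * (1 / 2) = v 0
      field_simp
    · show 2 * v 1 * (1 / 2) + 0 = v 1
      field_simp
      ring
    · show (v 1 ^ 2 * (1 / 2) + v 1 * 0 + 1 / 2) / (2 * v 0) = v 2
      have h3 : v 1 ^ 2 = 4 * v 0 * v 2 - 1 := by linear_combination hv'
      rw [h3]
      field_simp
      ring
  · intro w
    unfold dc
    rw [hΦ0, hΦ1, hΦ2]
    field_simp
    ring
  · intro w w'
    unfold pl
    rw [hΦ0, hΦ1, hΦ2, hΦ0, hΦ1, hΦ2]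
    field_simp
    ring

/-- `b² + 1 = 4 a c`: for every `b` the right side is a fixed nonzero number, so `a ≠ 0` is arbitrary and determines `c`: `p (p - 1)` triples -/
theorem card_Q (p : ℕ) [Fact p.Prime] (hp : p % 4 = 3) :
    Fintype.card {v : Fin 3 → ZMod p // dc v = -1} = p * (p - 1) := by
  have h2 := GD_two p hp
  have h4 : (4 : ZMod p) ≠ 0 := by
    have h5 : (4 : ZMod p) = 2 * 2 := by norm_num
    rw [h5]
    exact mul_ne_zero h2 h2
  let e : {v : Fin 3 → ZMod p // dc v = -1} ≃ ZMod p × (ZMod p)ˣ :=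
    { toFun := fun v => (v.1 1, Units.mk0 (v.1 0) (GD_ne p hp v.1 v.2))
      invFun := fun x => ⟨![(x.2 : ZMod p), x.1, (x.1 ^ 2 + 1) / (4 * (x.2 : ZMod p))], by
        have hx : (x.2 : ZMod p) ≠ 0 := x.2.ne_zero
        show x.1 ^ 2 - 4 * (x.2 : ZMod p) * ((x.1 ^ 2 + 1) / (4 * (x.2 : ZMod p))) = -1
        field_simp
        ring⟩
      left_inv := by
        rintro ⟨v, hv⟩
        have ha := GD_ne p hp v hv
        have hv' : v 1 ^ 2 - 4 * v 0 * v 2 = -1 := hv
        apply Subtype.ext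
        funext i
        fin_cases i
        · rfl
        · rfl
        · show (v 1 ^ 2 + 1) / (4 * v 0) = v 2
          have h3 : v 1 ^ 2 = 4 * v 0 * v 2 - 1 := by linear_combination hv'
          rw [h3]
          field_simp
          ring
      right_inv := by
        rintro ⟨b, a⟩
        refine Prod.ext rfl ?_
        exact Units.ext rfl }
  rw [Fintype.card_congr e, Fintype.card_prod, ZMod.card, ZMod.card_units]

end HYG
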