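import Pool.Agent.Lib.MP_10e784_agHO.ODefs

/-! Hyperelliptic curves, block G: triples of binary quadratic forms modulo p.  Definitions.  No leaf here. -/

set_option autoImplicit false

namespace HYG

open Finset HYO

variable {p : ℕ} [Fact p.Prime]

/-- the triple `q` is good for the set `B`: all `q i` irreducible and all `b (q i, q j)` in `B` -/
def Gd (B : Finset (ZMod p)) (q : Fin 3 → Fin 3 → ZMod p) : Prop :=
  (∀ i, ¬ IsSquare (dc (q i))) ∧
    ∀ i j, i ≠ j → ∃ e : ZMod p, e ≠ 0 ∧ IsSquare e ∧ e ^ 2 = dc (q i) * dc (q j) ∧ 2 * pl (q i) (q j) / e ∈ B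

/-- the form `(x² + z²)/2`, of discriminant `-1` -/
def v0 : Fin 3 → ZMod p := ![1 / 2, 0, 1 / 2]

/-- the discriminant of the Gram matrix -/
def gm (β γ δ : ZMod p) : ZMod p := 4 - β ^ 2 - γ ^ 2 - δ ^ 2 - β * γ * δ

end HYG
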