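import Pool.Agent.Lib.MP_10e784_agHG.GC
import Pool.Agent.Lib.MP_10e784_agHG.GD

/-! LEAF GE (uses GC, GD).  The number of normalised good triples. -/

set_option autoImplicit false

namespace HYG

open Finset HYO Classical

/-- the polar form is symmetric -/
private theorem GE_pl_comm {R : Type} [CommRing R] (q q' : Fin 3 → R) : pl q q' = pl q' q := by
  unfold pl
  ring

/-- the triple with the entries `a, b, c` -/
private def GE_tr {α : Type} (a b c : α) : Fin 3 → α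
  | 0 => a
  | 1 => b
  | 2 => c

private theorem GE_mem {p : ℕ} [Fact p.Prime] {B : Finset (ZMod p)} {a b c : Fin 3 → ZMod p}
    (ha : dc a = -1) (hb : dc b = -1) (hc : dc c = -1) (hab : 2 * pl a b ∈ B)
    (hac : 2 * pl a c ∈ B) (hbc : 2 * pl b c ∈ B) :
    (∀ i, dc (GE_tr a b c i) = -1) ∧
      ∀ i j, i ≠ j → 2 * pl (GE_tr a b c i) (GE_tr a b c j) ∈ B := by
  have hba : 2 * pl b a ∈ B := by rwa [GE_pl_comm b a]
  have hca : 2 * pl c a ∈ B := by rwa [GE_pl_comm c a]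
  have hcb : 2 * pl c b ∈ B := by rwa [GE_pl_comm c b]
  refine ⟨fun i => ?_, fun i j hij => ?_⟩
  · match i with
    | 0 => exact ha
    | 1 => exact hb
    | 2 => exact hc
  · match i, j with
    | 0, 0 => exact absurd rfl hij
    | 0, 1 => exact hab
    | 0, 2 => exact hac
    | 1, 0 => exact hba
    | 1, 1 => exact absurd rfl hij
    | 1, 2 => exact hbc
    | 2, 0 => exact hca
    | 2, 1 => exact hcb
    | 2, 2 => exact absurd rfl hij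

/-- the pairs in one fibre -/
private def GE_F (p : ℕ) [Fact p.Prime] (x : ZMod p × ZMod p × ZMod p)
    (v : (Fin 3 → ZMod p) × (Fin 3 → ZMod p)) : Prop :=
  dc v.1 = -1 ∧ dc v.2 = -1 ∧ 2 * pl v0 v.1 = x.1 ∧ 2 * pl v0 v.2 = x.2.1 ∧ 2 * pl v.1 v.2 = x.2.2

private theorem GE_inj (p : ℕ) [Fact p.Prime] (B B' : Finset (ZMod p)) (hB : B' ⊆ B)
    (Φ : {v : Fin 3 → ZMod p // dc v = -1} → ((Fin 3 → ZMod p) ≃ (Fin 3 → ZMod p)))
    (hΦ : ∀ w, Φ w v0 = w.1 ∧ (∀ u, dc (Φ w u) = dc u) ∧ ∀ u u', pl (Φ w u) (Φ w u') = pl u u') :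
    Fintype.card ({v : Fin 3 → ZMod p // dc v = -1} ×
      ((x : {x // x ∈ B'} × {x // x ∈ B'} × {x // x ∈ B}) ×
        {v : (Fin 3 → ZMod p) × (Fin 3 → ZMod p) // GE_F p (x.1.1, x.2.1.1, x.2.2.1) v})) ≤
      Fintype.card {v : Fin 3 → Fin 3 → ZMod p // (∀ i, dc (v i) = -1) ∧
        ∀ i j, i ≠ j → 2 * pl (v i) (v j) ∈ B} := by
  have hm : ∀ (w : {v : Fin 3 → ZMod p // dc v = -1}) (x : {x // x ∈ B'} × {x // x ∈ B'} × {x // x ∈ B})
      (u : (Fin 3 → ZMod p) × (Fin 3 → ZMod p)), GE_F p (x.1.1, x.2.1.1, x.2.2.1) u →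
      (∀ i, dc (GE_tr w.1 (Φ w u.1) (Φ w u.2) i) = -1) ∧ ∀ i j, i ≠ j →
        2 * pl (GE_tr w.1 (Φ w u.1) (Φ w u.2) i) (GE_tr w.1 (Φ w u.1) (Φ w u.2) j) ∈ B := by
    intro w x u hu
    obtain ⟨h1, h2, h3, h4, h5⟩ := hu
    refine GE_mem w.2 (((hΦ w).2.1 _).trans h1) (((hΦ w).2.1 _).trans h2) ?_ ?_ ?_
    · have e1 := (hΦ w).2.2 v0 u.1
      rw [(hΦ w).1] at e1
      rw [e1, h3]
      exact hB x.1.2
    · have e1 := (hΦ w).2.2 v0 u.2
      rw [(hΦ w).1] at e1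
      rw [e1, h4]
      exact hB x.2.1.2
    · rw [(hΦ w).2.2, h5]
      exact x.2.2.2
  let f : ({v : Fin 3 → ZMod p // dc v = -1} ×
      ((x : {x // x ∈ B'} × {x // x ∈ B'} × {x // x ∈ B}) ×
        {v : (Fin 3 → ZMod p) × (Fin 3 → ZMod p) // GE_F p (x.1.1, x.2.1.1, x.2.2.1) v})) →
      {v : Fin 3 → Fin 3 → ZMod p // (∀ i, dc (v i) = -1) ∧
        ∀ i j, i ≠ j → 2 * pl (v i) (v j) ∈ B} :=
    fun y => ⟨GE_tr y.1.1 (Φ y.1 y.2.2.1.1) (Φ y.1 y.2.2.1.2), hm y.1 y.2.1 y.2.2.1 y.2.2.2⟩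
  have hf : Function.Injective f := by
    rintro ⟨w, ⟨x, ⟨u, hu⟩⟩⟩ ⟨w', ⟨x', ⟨u', hu'⟩⟩⟩ h
    have h' : GE_tr w.1 (Φ w u.1) (Φ w u.2) = GE_tr w'.1 (Φ w' u'.1) (Φ w' u'.2) :=
      congrArg Subtype.val h
    have h0 : w = w' := Subtype.ext (congrFun h' 0)
    subst h0
    have h1 : u.1 = u'.1 := (Φ w).injective (congrFun h' 1)
    have h2 : u.2 = u'.2 := (Φ w).injective (congrFun h' 2)
    have h3 : u = u' := Prod.ext h1 h2
    subst h3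
    have e1 : x.1 = x'.1 := Subtype.ext (hu.2.2.1.symm.trans hu'.2.2.1)
    have e2 : x.2.1 = x'.2.1 := Subtype.ext (hu.2.2.2.1.symm.trans hu'.2.2.2.1)
    have e3 : x.2.2 = x'.2.2 := Subtype.ext (hu.2.2.2.2.symm.trans hu'.2.2.2.2)
    have e4 : x = x' := Prod.ext e1 (Prod.ext e2 e3)
    subst e4
    rfl
  exact Fintype.card_le_of_injective f hf

/-- Proof.  `v ↦ v 0` (with `dc (v 0) = -1`): for every such first vector `w`, the bijection `Φ` of `trans` maps the pairs `(v2, v3)` good for `v0` to the pairs good for `w`; `card_Q`: `N = p (p - 1) N'`, `N'` the number of pairs `(v2, v3)` with `dc = -1`, `2 pl v0 v2, 2 pl v0 v3, 2 pl v2 v3 ∈ B`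
(`pl` is symmetric, so the condition for `i ≠ j` is three conditions).  `N' ≥ ∑ over β, γ ∈ B` with `β² ≠ 4, γ² ≠ 4`, `δ ∈ B` of `fibre` (disjoint fibres). -/
theorem norm_ge (p : ℕ) [Fact p.Prime] (hp : p % 4 = 3) (B : Finset (ZMod p)) :
    (p : ℤ) * ((p : ℤ) - 1) * ((p : ℤ) + 1) * ∑ β ∈ B.filter (fun x => x ^ 2 ≠ 4), ∑ γ ∈ B.filter (fun x => x ^ 2 ≠ 4),
      ∑ δ ∈ B, (1 + quadraticChar (ZMod p) (gm β γ δ)) ≤
      (Fintype.card {v : Fin 3 → Fin 3 → ZMod p // (∀ i, dc (v i) = -1) ∧ ∀ i j, i ≠ j → 2 * pl (v i) (v j) ∈ B} : ℤ) := by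
  choose Φ hΦ using fun w : {v : Fin 3 → ZMod p // dc v = -1} => trans p hp w.1 w.2
  have hinj := GE_inj p B (B.filter (fun x => x ^ 2 ≠ 4)) (Finset.filter_subset _ _) Φ hΦ
  rw [Fintype.card_prod, card_Q p hp, Fintype.card_sigma] at hinj
  have hp1 : 1 ≤ p := (Fact.out : p.Prime).one_lt.le
  have hinj' := (Nat.cast_le (α := ℤ)).2 hinj
  rw [Nat.cast_mul, Nat.cast_mul, Nat.cast_sub hp1, Nat.cast_one, Nat.cast_sum] at hinj'
  refine le_trans (le_of_eq ?_) hinj'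
  have hfib : ∀ x : {x // x ∈ B.filter (fun x => x ^ 2 ≠ 4)} ×
      {x // x ∈ B.filter (fun x => x ^ 2 ≠ 4)} × {x // x ∈ B},
      ((Fintype.card {v : (Fin 3 → ZMod p) × (Fin 3 → ZMod p) //
          GE_F p (x.1.1, x.2.1.1, x.2.2.1) v} : ℕ) : ℤ) =
        (p + 1) * (1 + quadraticChar (ZMod p) (gm x.1.1 x.2.1.1 x.2.2.1)) := fun x =>
    (by rw [← fibre p hp x.1.1 x.2.1.1 x.2.2.1 (Finset.mem_filter.1 x.1.2).2
          (Finset.mem_filter.1 x.2.1.2).2]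
        exact congrArg Nat.cast (Fintype.card_congr (Equiv.refl _)))
  rw [Finset.sum_congr rfl fun x _ => hfib x, ← Finset.mul_sum]
  have e1 : ∑ β ∈ B.filter (fun x => x ^ 2 ≠ 4), ∑ γ ∈ B.filter (fun x => x ^ 2 ≠ 4),
      ∑ δ ∈ B, (1 + quadraticChar (ZMod p) (gm β γ δ)) =
      ∑ x : {x // x ∈ B.filter (fun x => x ^ 2 ≠ 4)} × {x // x ∈ B.filter (fun x => x ^ 2 ≠ 4)} ×
        {x // x ∈ B}, (1 + quadraticChar (ZMod p) (gm x.1.1 x.2.1.1 x.2.2.1)) := by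
    rw [Fintype.sum_prod_type, ← Finset.sum_coe_sort (B.filter (fun x => x ^ 2 ≠ 4))
      (fun β => ∑ γ ∈ B.filter (fun x => x ^ 2 ≠ 4),
        ∑ δ ∈ B, (1 + quadraticChar (ZMod p) (gm β γ δ)))]
    refine Finset.sum_congr rfl fun x _ => ?_
    rw [Fintype.sum_prod_type, ← Finset.sum_coe_sort (B.filter (fun x => x ^ 2 ≠ 4))
      (fun γ => ∑ δ ∈ B, (1 + quadraticChar (ZMod p) (gm x γ δ)))]
    refine Finset.sum_congr rfl fun y _ => ?_
    rw [← Finset.sum_coe_sort B (fun δ => 1 + quadraticChar (ZMod p) (gm x y δ))]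
  rw [e1]
  ring

end HYG
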