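import Mathlib

/-! LEAF GF1 (Mathlib only).  The plane curve `Y² = f(X)` is irreducible if `f` is not a square. -/

set_option autoImplicit false

namespace HYG

open Polynomial

/-- Proof.  `MvPolynomial (Fin 2) K`: variables `0 = X`, `1 = Y`.  Transport to `K[X][Y]` (`MvPolynomial.finSuccEquiv` twice and a swap, or build the isomorphism from `MvPolynomial.eval₂Hom` / `Polynomial.aeval`; or `finSuccEquiv` with respect to the variable 1 after `rename (Equiv.swap 0 1)`), where the polynomial is
`Y² - C f`, monic of degree 2 over the domain `K[X]`: if it factors, it has two monic factors `Y - g, Y + g` and `f = g²` (`Polynomial.Monic.irreducible_iff_natDegree'`, or `X_pow_sub_C_irreducible`-type lemmas over the fraction field + Gauss).  `totalDegree ≤ max 2 (natDegree f)`: second statement. -/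
theorem irr_curve {K : Type} [Field K] (h2 : (2 : K) ≠ 0) (f : K[X]) (hf : ∀ g : K[X], f ≠ g ^ 2) :
    Irreducible ((MvPolynomial.X 1 : MvPolynomial (Fin 2) K) ^ 2 - Polynomial.aeval (MvPolynomial.X 0) f) := by
  let e : MvPolynomial (Fin 2) K ≃ₐ[K] Polynomial (MvPolynomial (Fin 1) K) :=
    (MvPolynomial.renameEquiv K (Equiv.swap (0 : Fin 2) 1)).trans (MvPolynomial.finSuccEquiv K 1)
  have e1 : e (MvPolynomial.X 1) = Polynomial.X := by
    show MvPolynomial.finSuccEquiv K 1 (MvPolynomial.renameEquiv K (Equiv.swap (0 : Fin 2) 1) (MvPolynomial.X 1)) = _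
    rw [MvPolynomial.renameEquiv_apply, MvPolynomial.rename_X, Equiv.swap_apply_right, MvPolynomial.finSuccEquiv_X_zero]
  have e0 : e (MvPolynomial.X 0) = Polynomial.C (MvPolynomial.X 0) := by
    show MvPolynomial.finSuccEquiv K 1 (MvPolynomial.renameEquiv K (Equiv.swap (0 : Fin 2) 1) (MvPolynomial.X 0)) = _
    rw [MvPolynomial.renameEquiv_apply, MvPolynomial.rename_X, Equiv.swap_apply_left]
    exact MvPolynomial.finSuccEquiv_X_succ (j := (0 : Fin 1))
  have e2 : e (Polynomial.aeval (MvPolynomial.X 0) f) =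
      Polynomial.C (Polynomial.aeval (MvPolynomial.X 0 : MvPolynomial (Fin 1) K) f) := by
    rw [← AlgEquiv.coe_toAlgHom, ← Polynomial.aeval_algHom_apply, AlgEquiv.coe_toAlgHom, e0]
    exact Polynomial.aeval_algHom_apply (Polynomial.CAlgHom (R := K) (A := MvPolynomial (Fin 1) K)) _ f
  rw [← MulEquiv.irreducible_iff e.toMulEquiv]
  have e3 : e.toMulEquiv ((MvPolynomial.X 1 : MvPolynomial (Fin 2) K) ^ 2 - Polynomial.aeval (MvPolynomial.X 0) f) =
      Polynomial.X ^ 2 - Polynomial.C (Polynomial.aeval (MvPolynomial.X 0 : MvPolynomial (Fin 1) K) f) := by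
    show e _ = _
    rw [map_sub, map_pow, e1, e2]
  rw [e3]
  set c : MvPolynomial (Fin 1) K := Polynomial.aeval (MvPolynomial.X 0) f with hc
  have hm : (Polynomial.X ^ 2 - Polynomial.C c).Monic := Polynomial.monic_X_pow_sub_C c (by norm_num)
  have hd : (Polynomial.X ^ 2 - Polynomial.C c).natDegree = 2 := Polynomial.natDegree_X_pow_sub_C
  rw [hm.irreducible_iff_roots_eq_zero_of_degree_le_three (by rw [hd]) (by rw [hd]; norm_num)]
  rw [Multiset.eq_zero_iff_forall_notMem]
  intro r hr
  rw [Polynomial.mem_roots hm.ne_zero, Polynomial.IsRoot.def, Polynomial.eval_sub, Polynomial.eval_pow,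
    Polynomial.eval_X, Polynomial.eval_C, sub_eq_zero] at hr
  have h3 := congrArg (MvPolynomial.aeval (fun _ : Fin 1 => (Polynomial.X : K[X]))) hr
  rw [map_pow, hc, ← Polynomial.aeval_algHom_apply, MvPolynomial.aeval_X, Polynomial.aeval_X_left_apply] at h3
  exact hf _ h3.symm

theorem deg_curve {K : Type} [Field K] (f : K[X]) (hd : f.natDegree = 4) :
    ((MvPolynomial.X 1 : MvPolynomial (Fin 2) K) ^ 2 - Polynomial.aeval (MvPolynomial.X 0) f).totalDegree = 4 := by
  have hsum : (Polynomial.aeval (MvPolynomial.X 0 : MvPolynomial (Fin 2) K)) f =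
      ∑ i ∈ Finset.range 5, f.coeff i • (MvPolynomial.X 0 : MvPolynomial (Fin 2) K) ^ i := by
    rw [Polynomial.aeval_eq_sum_range, hd]
  refine le_antisymm ?_ ?_
  · refine (MvPolynomial.totalDegree_sub _ _).trans (max_le ?_ ?_)
    · refine (MvPolynomial.totalDegree_pow _ _).trans ?_
      rw [MvPolynomial.totalDegree_X]
      norm_num
    · rw [hsum]
      refine MvPolynomial.totalDegree_finsetSum_le fun i hi => ?_
      refine (MvPolynomial.totalDegree_smul_le _ _).trans ((MvPolynomial.totalDegree_pow _ _).trans ?_)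
      rw [MvPolynomial.totalDegree_X, mul_one]
      have := Finset.mem_range.1 hi
      omega
  · have hs : (Finsupp.single (0 : Fin 2) 4) ∈ ((MvPolynomial.X 1 : MvPolynomial (Fin 2) K) ^ 2 -
        Polynomial.aeval (MvPolynomial.X 0) f).support := by
      rw [MvPolynomial.mem_support_iff, MvPolynomial.coeff_sub, hsum, MvPolynomial.coeff_sum]
      have h1 : MvPolynomial.coeff (Finsupp.single (0 : Fin 2) 4) ((MvPolynomial.X 1 : MvPolynomial (Fin 2) K) ^ 2) = 0 := by
        rw [MvPolynomial.coeff_X_pow, if_neg]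
        intro h
        have := DFunLike.congr_fun h (0 : Fin 2)
        simp at this
      have h2 : ∀ i ∈ Finset.range 5, MvPolynomial.coeff (Finsupp.single (0 : Fin 2) 4)
          (f.coeff i • (MvPolynomial.X 0 : MvPolynomial (Fin 2) K) ^ i) = if i = 4 then f.coeff 4 else 0 := by
        intro i _
        rw [MvPolynomial.coeff_smul, MvPolynomial.coeff_X_pow]
        by_cases h : i = 4
        · rw [if_pos (by rw [h]), if_pos h, h, smul_eq_mul, mul_one]
        · rw [if_neg, if_neg h, smul_zero]
          intro h3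
          have := DFunLike.congr_fun h3 (0 : Fin 2)
          simp at this
          exact h this
      rw [h1, Finset.sum_congr rfl h2, Finset.sum_ite_eq', if_pos (by norm_num), zero_sub, neg_ne_zero, ← hd]
      exact Polynomial.leadingCoeff_ne_zero.2 (by rintro rfl; simp at hd)
    have h3 := MvPolynomial.le_totalDegree hs
    rwa [Finsupp.sum_single_index rfl] at h3

end HYG
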