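import Pool.Agent.Lib.LW.CuK
import Pool.Agent.Lib.MP_10e784_agHG.GF1

/-! LEAF GF2 (uses GF1 and LW.curve_points).  Character sums of products of two quadratic polynomials. -/

set_option autoImplicit false

namespace HYG

open Polynomial

private theorem GF2_monic {K : Type} [Field K] (a b : K) : (X ^ 2 + C a * X + C b : K[X]).Monic := by
  monicity!

private theorem GF2_deg {K : Type} [Field K] (a b : K) : (X ^ 2 + C a * X + C b : K[X]).natDegree = 2 := by
  compute_degree!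

private theorem GF2_sqf {K : Type} [Field K] (a b : K) (hab : a ^ 2 ≠ 4 * b) :
    Squarefree (X ^ 2 + C a * X + C b : K[X]) := by
  refine Polynomial.Separable.squarefree ?_
  have hD : 4 * b - a ^ 2 ≠ 0 := fun h => hab (sub_eq_zero.1 h).symm
  have hder : derivative (X ^ 2 + C a * X + C b : K[X]) = 2 * X + C a := by
    have h2 : (C 2 : K[X]) = 2 := map_ofNat C 2
    simp [one_add_one_eq_two, h2]
  refine ⟨4 * C ((4 * b - a ^ 2)⁻¹), - (C ((4 * b - a ^ 2)⁻¹) * (2 * X + C a)), ?_⟩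
  rw [hder]
  have h1 : 4 * C ((4 * b - a ^ 2)⁻¹) * (X ^ 2 + C a * X + C b : K[X]) +
      -(C ((4 * b - a ^ 2)⁻¹) * (2 * X + C a)) * (2 * X + C a) =
      C ((4 * b - a ^ 2)⁻¹ * (4 * b - a ^ 2)) := by
    have h4 : (C 4 : K[X]) = 4 := map_ofNat C 4
    rw [C_mul, C_sub, C_mul, C_pow, h4]
    ring
  rw [h1, inv_mul_cancel₀ hD, C_1]

/-- over a field of characteristic `≠ 2`: if `u = x² + a x + b`, `v = x² + c x + d` have nonzero discriminants and `u ≠ v`, then `n u v` (`n ≠ 0`) is not a square: over an algebraically closed `K`, `u = (x - r)(x - s)`, `r ≠ s`; if `n u v = g²` then `(x - r)² ∣ u v`, so `(x - r) ∣ v`, also `(x - s) ∣ v`, so `v = u` -/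
theorem not_sq {K : Type} [Field K] [IsAlgClosed K] (h2 : (2 : K) ≠ 0) (a b c d n : K) (hn : n ≠ 0)
    (hab : a ^ 2 ≠ 4 * b) (hcd : c ^ 2 ≠ 4 * d) (hne : (a, b) ≠ (c, d)) (g : K[X]) :
    C n * ((X ^ 2 + C a * X + C b) * (X ^ 2 + C c * X + C d)) ≠ g ^ 2 := by
  intro h
  have hu0 : (X ^ 2 + C a * X + C b : K[X]) ≠ 0 := (GF2_monic a b).ne_zero
  have hdvd : (X ^ 2 + C a * X + C b : K[X]) ∣ g ^ 2 := by
    rw [← h]
    exact Dvd.intro_left _ (by ring : (C n * (X ^ 2 + C c * X + C d)) * (X ^ 2 + C a * X + C b : K[X]) = _)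
  have hg : (X ^ 2 + C a * X + C b : K[X]) ∣ g :=
    ((GF2_sqf a b hab).dvd_pow_iff_dvd two_ne_zero).1 hdvd
  obtain ⟨k, rfl⟩ := hg
  have h3 : (X ^ 2 + C a * X + C b : K[X]) * (C n * (X ^ 2 + C c * X + C d)) =
      (X ^ 2 + C a * X + C b : K[X]) * ((X ^ 2 + C a * X + C b : K[X]) * k ^ 2) := by
    linear_combination h
  have h4 : C n * (X ^ 2 + C c * X + C d) = (X ^ 2 + C a * X + C b : K[X]) * k ^ 2 := mul_left_cancel₀ hu0 h3
  have h5 : (X ^ 2 + C c * X + C d : K[X]) = (X ^ 2 + C a * X + C b : K[X]) * (C n⁻¹ * k ^ 2) := by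
    have h6 : C n⁻¹ * (C n * (X ^ 2 + C c * X + C d)) = (X ^ 2 + C c * X + C d : K[X]) := by
      rw [← mul_assoc, ← C_mul, inv_mul_cancel₀ hn, C_1, one_mul]
    rw [← h6, h4]
    ring
  have h7 : (X ^ 2 + C c * X + C d : K[X]) = X ^ 2 + C a * X + C b :=
    Polynomial.eq_of_monic_of_dvd_of_natDegree_le (GF2_monic a b) (GF2_monic c d) ⟨_, h5⟩
      (by rw [GF2_deg, GF2_deg])
  apply hne
  have h8 : c = a := by
    have := congrArg (fun q : K[X] => q.coeff 1) h7
    simpa [coeff_X, coeff_C] using this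
  have h9 : d = b := by
    have := congrArg (fun q : K[X] => q.coeff 0) h7
    simpa [coeff_X, coeff_C] using this
  rw [h8, h9]

private theorem GF2_half (p : ℕ) [Fact p.Prime] (hp : 300 * 4 ^ 6 ≤ p) (a b c d n : ZMod p) (hn : n ≠ 0)
    (hab : a ^ 2 ≠ 4 * b) (hcd : c ^ 2 ≠ 4 * d) (hne : (a, b) ≠ (c, d)) :
    ((∑ x : ZMod p, quadraticChar (ZMod p) (n * ((x ^ 2 + a * x + b) * (x ^ 2 + c * x + d))) : ℤ) : ℝ) ≤
      2560 * Real.sqrt p := by
  classical
  let F := AlgebraicClosure (ZMod p)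
  let φ : ZMod p →+* F := algebraMap (ZMod p) F
  have hφ : Function.Injective φ := φ.injective
  have : CharP F p := charP_of_injective_algebraMap hφ p
  have hp2 : p ≠ 2 := by
    intro h
    rw [h] at hp
    norm_num at hp
  have hring : ringChar (ZMod p) ≠ 2 := by
    rw [ZMod.ringChar_zmod_n]
    exact hp2
  have h2p : (2 : ZMod p) ≠ 0 := Ring.two_ne_zero hring
  have h2 : (2 : F) ≠ 0 := by
    intro h
    apply h2p
    apply hφ
    rw [map_zero, map_ofNat]
    exact h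
  let f : F[X] := C (φ n) * ((X ^ 2 + C (φ a) * X + C (φ b)) * (X ^ 2 + C (φ c) * X + C (φ d)))
  have hn' : φ n ≠ 0 := (map_ne_zero φ).2 hn
  have hab' : φ a ^ 2 ≠ 4 * φ b := by
    intro h
    apply hab
    apply hφ
    rw [map_pow, map_mul, map_ofNat]
    exact h
  have hcd' : φ c ^ 2 ≠ 4 * φ d := by
    intro h
    apply hcd
    apply hφ
    rw [map_pow, map_mul, map_ofNat]
    exact h
  have hne' : (φ a, φ b) ≠ (φ c, φ d) := by
    intro h
    apply hne
    rw [Prod.mk.injEq] at h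
    rw [hφ h.1, hφ h.2]
  have hf : ∀ g : F[X], f ≠ g ^ 2 := not_sq h2 _ _ _ _ _ hn' hab' hcd' hne'
  have hfd : f.natDegree = 4 := by
    show (C (φ n) * ((X ^ 2 + C (φ a) * X + C (φ b)) * (X ^ 2 + C (φ c) * X + C (φ d)))).natDegree = 4
    rw [Polynomial.natDegree_C_mul hn', (GF2_monic _ _).natDegree_mul (GF2_monic _ _), GF2_deg, GF2_deg]
  have hirr := irr_curve h2 f hf
  have hdeg := deg_curve f hfd
  let S0 : Finset (ZMod p × ZMod p) :=
    Finset.univ.filter fun q => q.2 ^ 2 = n * ((q.1 ^ 2 + a * q.1 + b) * (q.1 ^ 2 + c * q.1 + d))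
  let ι : ZMod p × ZMod p → (Fin 2 → F) := fun q => ![φ q.1, φ q.2]
  have hι : Function.Injective ι := by
    intro q q' h
    have h0 := congrFun h 0
    have h1 := congrFun h 1
    exact Prod.ext (hφ h0) (hφ h1)
  have hS : ∀ x ∈ S0.image ι, (∀ i, x i ^ p = x i) ∧
      MvPolynomial.eval x ((MvPolynomial.X 1 : MvPolynomial (Fin 2) F) ^ 2 - Polynomial.aeval (MvPolynomial.X 0) f) = 0 := by
    intro x hx
    obtain ⟨q, hq, rfl⟩ := Finset.mem_image.1 hx
    have hq2 : q.2 ^ 2 = n * ((q.1 ^ 2 + a * q.1 + b) * (q.1 ^ 2 + c * q.1 + d)) := (Finset.mem_filter.1 hq).2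
    refine ⟨fun i => ?_, ?_⟩
    · fin_cases i
      · show φ q.1 ^ p = φ q.1
        rw [← map_pow, ZMod.pow_card]
      · show φ q.2 ^ p = φ q.2
        rw [← map_pow, ZMod.pow_card]
    · have h3 : MvPolynomial.eval (ι q) (Polynomial.aeval (MvPolynomial.X 0 : MvPolynomial (Fin 2) F) f) =
          f.eval (φ q.1) := by
        rw [← MvPolynomial.coe_aeval_eq_eval]
        show (MvPolynomial.aeval (ι q)) (Polynomial.aeval (MvPolynomial.X 0 : MvPolynomial (Fin 2) F) f) = _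
        rw [← Polynomial.aeval_algHom_apply, MvPolynomial.aeval_X, Polynomial.coe_aeval_eq_eval]
        rfl
      rw [map_sub, map_pow, MvPolynomial.eval_X, h3]
      show φ q.2 ^ 2 - f.eval (φ q.1) = 0
      rw [sub_eq_zero, ← map_pow, hq2]
      show _ = (C (φ n) * ((X ^ 2 + C (φ a) * X + C (φ b)) * (X ^ 2 + C (φ c) * X + C (φ d)))).eval (φ q.1)
      simp
  have hcp := LW.curve_points p _ hirr (by rw [hdeg]; exact hp) (by rw [hdeg]; norm_num) (S0.image ι) hS
  rw [hdeg, Finset.card_image_of_injective _ hι] at hcp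
  have hcard : ((S0.card : ℤ)) = p + ∑ x : ZMod p, quadraticChar (ZMod p) (n * ((x ^ 2 + a * x + b) * (x ^ 2 + c * x + d))) := by
    have h1 : S0.card = ∑ x : ZMod p, (Finset.univ.filter fun y : ZMod p =>
        y ^ 2 = n * ((x ^ 2 + a * x + b) * (x ^ 2 + c * x + d))).card := by
      rw [Finset.card_filter, ← Finset.univ_product_univ, Finset.sum_product]
      refine Finset.sum_congr rfl fun x _ => ?_
      rw [Finset.card_filter]
    rw [h1, Nat.cast_sum]
    have h2 : ∀ x : ZMod p, (((Finset.univ.filter fun y : ZMod p =>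
        y ^ 2 = n * ((x ^ 2 + a * x + b) * (x ^ 2 + c * x + d))).card : ℕ) : ℤ) =
          quadraticChar (ZMod p) (n * ((x ^ 2 + a * x + b) * (x ^ 2 + c * x + d))) + 1 := by
      intro x
      rw [← quadraticChar_card_sqrts hring]
      congr 2
      ext y
      simp
    rw [Finset.sum_congr rfl fun x _ => h2 x, Finset.sum_add_distrib, Finset.sum_const, Finset.card_univ, ZMod.card]
    simp [add_comm]
  have h5 : ((S0.card : ℤ) : ℝ) = (S0.card : ℝ) := by norm_cast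
  have h6 : (S0.card : ℝ) = p + ((∑ x : ZMod p, quadraticChar (ZMod p) (n * ((x ^ 2 + a * x + b) * (x ^ 2 + c * x + d))) : ℤ) : ℝ) := by
    rw [← h5, hcard]
    push_cast
    ring
  rw [h6] at hcp
  have h7 : (40 * ((4 : ℕ) : ℝ) ^ 3 * Real.sqrt p) = 2560 * Real.sqrt p := by norm_num
  rw [h7] at hcp
  linarith

/-- Proof.  For `n = 1` and for `n` a fixed nonsquare (`FiniteField.exists_nonsquare`): `F = AlgebraicClosure (ZMod p)`, `g = Y² - n u v` irreducible of total degree 4 (`irr_curve`, `not_sq`, `deg_curve`), `LW.curve_points` with `S` = the image of the points `(x, y) ∈ (ZMod p)²` with `y² = n u(x) v(x)`: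
`#S = ∑_x (1 + χ(n u v)) ≤ p + 40 · 64 √p` for `p ≥ 300 · 4^6`.  With `n = 1`: `∑ χ(uv) ≤ 2560 √p`; with `n` a nonsquare (`χ(n) = -1`): `-∑ χ(uv) ≤ 2560 √p`. -/
theorem quartic : ∃ C : ℝ, 0 ≤ C ∧ ∃ p0 : ℕ, ∀ (p : ℕ) [Fact p.Prime], p0 ≤ p → ∀ a b c d : ZMod p,
    a ^ 2 ≠ 4 * b → c ^ 2 ≠ 4 * d → (a, b) ≠ (c, d) →
      |∑ x : ZMod p, ((quadraticChar (ZMod p) ((x ^ 2 + a * x + b) * (x ^ 2 + c * x + d)) : ℤ) : ℝ)| ≤ C * Real.sqrt p := by
  refine ⟨2560, by norm_num, 300 * 4 ^ 6, fun p _ hp a b c d hab hcd hne => ?_⟩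
  have hp2 : p ≠ 2 := by
    intro h
    rw [h] at hp
    norm_num at hp
  have hring : ringChar (ZMod p) ≠ 2 := by
    rw [ZMod.ringChar_zmod_n]
    exact hp2
  obtain ⟨n, hn⟩ := FiniteField.exists_nonsquare (F := ZMod p) hring
  have hn0 : n ≠ 0 := by
    rintro rfl
    exact hn ⟨0, by ring⟩
  have hχ : quadraticChar (ZMod p) n = -1 := quadraticChar_neg_one_iff_not_isSquare.2 hn
  have h1 := GF2_half p hp a b c d 1 one_ne_zero hab hcd hne
  have h2 := GF2_half p hp a b c d n hn0 hab hcd hne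
  simp only [one_mul] at h1
  have h3 : (∑ x : ZMod p, quadraticChar (ZMod p) (n * ((x ^ 2 + a * x + b) * (x ^ 2 + c * x + d)))) =
      - ∑ x : ZMod p, quadraticChar (ZMod p) ((x ^ 2 + a * x + b) * (x ^ 2 + c * x + d)) := by
    rw [← Finset.sum_neg_distrib]
    refine Finset.sum_congr rfl fun x _ => ?_
    rw [map_mul, hχ]
    ring
  rw [h3] at h2
  push_cast at h1 h2
  rw [abs_le]
  constructor <;> linarith

end HYG
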