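import Pool.Agent.Lib.MP_10e784_agHG.GDefs
import Pool.Agent.Lib.MP_10e784_agHG.GF2

/-! LEAF GG (uses GF2).  The bilinear sum for a fixed first coordinate. -/

set_option autoImplicit false

namespace HYG

open Finset

private theorem GG_abs {p : ℕ} [Fact p.Prime] (x : ZMod p) : |((quadraticChar (ZMod p) x : ℤ) : ℝ)| ≤ 1 := by
  by_cases hx : x = 0
  · rw [hx, quadraticChar_zero]
    simp
  · rcases quadraticChar_dichotomy hx with h | h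
    · rw [h]
      simp
    · rw [h]
      simp

private theorem GG_le {p : ℕ} [Fact p.Prime] (f : ZMod p → ZMod p) :
    |∑ x : ZMod p, ((quadraticChar (ZMod p) (f x) : ℤ) : ℝ)| ≤ p := by
  refine (Finset.abs_sum_le_sum_abs _ _).trans ?_
  refine (Finset.sum_le_sum fun x _ => GG_abs (f x)).trans ?_
  rw [Finset.sum_const, Finset.card_univ, ZMod.card, nsmul_eq_mul, mul_one]

private theorem GG_pair {p : ℕ} [Fact p.Prime] {C : ℝ} (hC : 0 ≤ C) {β : ZMod p} (hβ : β ≠ 0) (hβ4 : β ^ 2 ≠ 4)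
    (H : ∀ a b c d : ZMod p, a ^ 2 ≠ 4 * b → c ^ 2 ≠ 4 * d → (a, b) ≠ (c, d) →
      |∑ x : ZMod p, ((quadraticChar (ZMod p) ((x ^ 2 + a * x + b) * (x ^ 2 + c * x + d)) : ℤ) : ℝ)| ≤
        C * Real.sqrt p) (δ δ' : ZMod p) :
    ∑ γ : ZMod p, ((quadraticChar (ZMod p) (gm β γ δ) : ℤ) : ℝ) * ((quadraticChar (ZMod p) (gm β γ δ') : ℤ) : ℝ) ≤
      C * Real.sqrt p + (if δ = δ' then (p : ℝ) else 0) + (if δ ^ 2 = 4 then (p : ℝ) else 0) +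
        (if δ' ^ 2 = 4 then (p : ℝ) else 0) := by
  have e : ∀ γ : ZMod p, ((quadraticChar (ZMod p) (gm β γ δ) : ℤ) : ℝ) *
      ((quadraticChar (ZMod p) (gm β γ δ') : ℤ) : ℝ) =
      ((quadraticChar (ZMod p) ((γ ^ 2 + (β * δ) * γ + (β ^ 2 + δ ^ 2 - 4)) *
        (γ ^ 2 + (β * δ') * γ + (β ^ 2 + δ' ^ 2 - 4))) : ℤ) : ℝ) := by
    intro γ
    rw [← Int.cast_mul, ← map_mul]
    have h1 : gm β γ δ * gm β γ δ' = (γ ^ 2 + (β * δ) * γ + (β ^ 2 + δ ^ 2 - 4)) *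
        (γ ^ 2 + (β * δ') * γ + (β ^ 2 + δ' ^ 2 - 4)) := by
      unfold gm
      ring
    rw [h1]
  rw [Finset.sum_congr rfl fun γ _ => e γ]
  have hp0 : (0 : ℝ) ≤ p := Nat.cast_nonneg p
  have hs0 : 0 ≤ C * Real.sqrt p := mul_nonneg hC (Real.sqrt_nonneg _)
  have hi : ∀ (q : Prop) [Decidable q], (0 : ℝ) ≤ if q then (p : ℝ) else 0 := by
    intro q _
    split_ifs
    · exact hp0
    · exact le_refl _
  have hle := (abs_le.1 (GG_le (fun γ : ZMod p => (γ ^ 2 + (β * δ) * γ + (β ^ 2 + δ ^ 2 - 4)) *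
        (γ ^ 2 + (β * δ') * γ + (β ^ 2 + δ' ^ 2 - 4))))).2
  have i1 := hi (δ = δ')
  have i2 := hi (δ ^ 2 = 4)
  have i3 := hi (δ' ^ 2 = 4)
  by_cases h1 : δ = δ'
  · rw [if_pos h1]
    linarith
  by_cases h2 : δ ^ 2 = 4
  · rw [if_pos h2]
    linarith
  by_cases h3 : δ' ^ 2 = 4
  · rw [if_pos h3]
    linarith
  have hd : ∀ ε : ZMod p, ε ^ 2 ≠ 4 → (β * ε) ^ 2 ≠ 4 * (β ^ 2 + ε ^ 2 - 4) := by
    intro ε hε h4
    have h5 : (β ^ 2 - 4) * (ε ^ 2 - 4) = 0 := by linear_combination h4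
    rcases mul_eq_zero.1 h5 with h6 | h6
    · exact hβ4 (sub_eq_zero.1 h6)
    · exact hε (sub_eq_zero.1 h6)
  have h4 := (abs_le.1 (H (β * δ) (β ^ 2 + δ ^ 2 - 4) (β * δ') (β ^ 2 + δ' ^ 2 - 4) (hd δ h2) (hd δ' h3) (by
    intro h5
    have h6 : β * δ = β * δ' := (Prod.mk.inj h5).1
    exact h1 (mul_left_cancel₀ hβ h6)))).2
  linarith

private theorem GG_two {p : ℕ} [Fact p.Prime] (B : Finset (ZMod p)) :
    ((B.filter fun δ => δ ^ 2 = 4).card : ℝ) ≤ 2 := by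
  have h1 : (B.filter fun δ => δ ^ 2 = 4) ⊆ {2, -2} := by
    intro δ hδ
    rw [Finset.mem_filter] at hδ
    have h2 : δ ^ 2 = 2 ^ 2 := by
      rw [hδ.2]
      norm_num
    rw [Finset.mem_insert, Finset.mem_singleton]
    exact sq_eq_sq_iff_eq_or_eq_neg.1 h2
  have h2 : (B.filter fun δ => δ ^ 2 = 4).card ≤ 2 := (Finset.card_le_card h1).trans Finset.card_le_two
  exact_mod_cast h2

/-- Proof.  Cauchy-Schwarz: `|S|² ≤ #B1 ∑_{γ ∈ ZMod p} (∑_{δ ∈ B} χ(gm β γ δ))² = #B1 ∑_{δ, δ' ∈ B} ∑_γ χ(gm β γ δ · gm β γ δ')`.  `gm β γ δ = -(γ² + (β δ) γ + (β² + δ² - 4))`, so the product is `(γ² + a γ + b)(γ² + c γ + d)` with `a = β δ, b = β² + δ² - 4`, `c = β δ', d = β² + δ'² - 4`;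
`a² - 4 b = (β² - 4)(δ² - 4)`.  If `δ ≠ δ'`, `δ² ≠ 4`, `δ'² ≠ 4`: `quartic` (`a ≠ c` because `β ≠ 0`): at most `C √p`.  The other pairs: at most `5 #B` (`δ = δ'`; `δ² = 4`: at most 2 values; the same for `δ'`), each at most `p`. -/
theorem bilin : ∃ C : ℝ, 0 ≤ C ∧ ∃ p0 : ℕ, ∀ (p : ℕ) [Fact p.Prime], p0 ≤ p → ∀ (β : ZMod p), β ≠ 0 → β ^ 2 ≠ 4 →
    ∀ B1 B : Finset (ZMod p),
      (∑ γ ∈ B1, ∑ δ ∈ B, ((quadraticChar (ZMod p) (gm β γ δ) : ℤ) : ℝ)) ^ 2 ≤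
        B1.card * (5 * B.card * p + C * (B.card : ℝ) ^ 2 * Real.sqrt p) := by
  obtain ⟨C, hC, p0, H⟩ := quartic
  refine ⟨C, hC, p0, fun p _ hp β hβ hβ4 B1 B => ?_⟩
  have hp0 : (0 : ℝ) ≤ p := Nat.cast_nonneg p
  have h1 : (∑ γ ∈ B1, ∑ δ ∈ B, ((quadraticChar (ZMod p) (gm β γ δ) : ℤ) : ℝ)) ^ 2 ≤
      B1.card * ∑ γ ∈ B1, (∑ δ ∈ B, ((quadraticChar (ZMod p) (gm β γ δ) : ℤ) : ℝ)) ^ 2 := sq_sum_le_card_mul_sum_sq
  have h2 : ∑ γ ∈ B1, (∑ δ ∈ B, ((quadraticChar (ZMod p) (gm β γ δ) : ℤ) : ℝ)) ^ 2 ≤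
      ∑ γ : ZMod p, (∑ δ ∈ B, ((quadraticChar (ZMod p) (gm β γ δ) : ℤ) : ℝ)) ^ 2 :=
    Finset.sum_le_sum_of_subset_of_nonneg (Finset.subset_univ _) fun _ _ _ => sq_nonneg _
  have h3 : ∑ γ : ZMod p, (∑ δ ∈ B, ((quadraticChar (ZMod p) (gm β γ δ) : ℤ) : ℝ)) ^ 2 =
      ∑ δ ∈ B, ∑ δ' ∈ B, ∑ γ : ZMod p, ((quadraticChar (ZMod p) (gm β γ δ) : ℤ) : ℝ) *
        ((quadraticChar (ZMod p) (gm β γ δ') : ℤ) : ℝ) := by
    have h4 : ∀ γ : ZMod p, (∑ δ ∈ B, ((quadraticChar (ZMod p) (gm β γ δ) : ℤ) : ℝ)) ^ 2 =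
        ∑ δ ∈ B, ∑ δ' ∈ B, ((quadraticChar (ZMod p) (gm β γ δ) : ℤ) : ℝ) *
        ((quadraticChar (ZMod p) (gm β γ δ') : ℤ) : ℝ) := by
      intro γ
      rw [sq, Finset.sum_mul_sum]
    rw [Finset.sum_congr rfl fun γ _ => h4 γ, Finset.sum_comm]
    refine Finset.sum_congr rfl fun δ _ => ?_
    rw [Finset.sum_comm]
  have h5 : ∑ δ ∈ B, ∑ δ' ∈ B, ∑ γ : ZMod p, ((quadraticChar (ZMod p) (gm β γ δ) : ℤ) : ℝ) *
        ((quadraticChar (ZMod p) (gm β γ δ') : ℤ) : ℝ) ≤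
      ∑ δ ∈ B, ∑ δ' ∈ B, (C * Real.sqrt p + (if δ = δ' then (p : ℝ) else 0) + (if δ ^ 2 = 4 then (p : ℝ) else 0) +
        (if δ' ^ 2 = 4 then (p : ℝ) else 0)) :=
    Finset.sum_le_sum fun δ _ => Finset.sum_le_sum fun δ' _ => GG_pair hC hβ hβ4 (H p hp) δ δ'
  have h6 : ∑ δ ∈ B, ∑ δ' ∈ B, (C * Real.sqrt p + (if δ = δ' then (p : ℝ) else 0) +
      (if δ ^ 2 = 4 then (p : ℝ) else 0) + (if δ' ^ 2 = 4 then (p : ℝ) else 0)) =
      (B.card : ℝ) * (B.card * (C * Real.sqrt p)) + B.card * p +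
        B.card * ((B.filter fun δ => δ ^ 2 = 4).card * p) + B.card * ((B.filter fun δ => δ ^ 2 = 4).card * p) := by
    have e1 : ∀ δ ∈ B, ∑ δ' ∈ B, (C * Real.sqrt p + (if δ = δ' then (p : ℝ) else 0) +
      (if δ ^ 2 = 4 then (p : ℝ) else 0) + (if δ' ^ 2 = 4 then (p : ℝ) else 0)) =
        B.card * (C * Real.sqrt p) + p + B.card * (if δ ^ 2 = 4 then (p : ℝ) else 0) +
          (B.filter fun δ => δ ^ 2 = 4).card * p := by
      intro δ hδ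
      rw [Finset.sum_add_distrib, Finset.sum_add_distrib, Finset.sum_add_distrib, Finset.sum_const,
        Finset.sum_ite_eq, if_pos hδ, Finset.sum_const, ← Finset.sum_filter, Finset.sum_const, nsmul_eq_mul,
        nsmul_eq_mul, nsmul_eq_mul]
    rw [Finset.sum_congr rfl e1, Finset.sum_add_distrib, Finset.sum_add_distrib, Finset.sum_add_distrib,
      Finset.sum_const, Finset.sum_const, ← Finset.mul_sum, ← Finset.sum_filter, Finset.sum_const, Finset.sum_const,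
      nsmul_eq_mul, nsmul_eq_mul, nsmul_eq_mul, nsmul_eq_mul]
  have h7 : ((B.filter fun δ => δ ^ 2 = 4).card : ℝ) * p ≤ 2 * p := mul_le_mul_of_nonneg_right (GG_two B) hp0
  have h8 : (B.card : ℝ) * ((B.filter fun δ => δ ^ 2 = 4).card * p) ≤ B.card * (2 * p) :=
    mul_le_mul_of_nonneg_left h7 (Nat.cast_nonneg _)
  have h9 : ∑ γ ∈ B1, (∑ δ ∈ B, ((quadraticChar (ZMod p) (gm β γ δ) : ℤ) : ℝ)) ^ 2 ≤
      5 * B.card * p + C * (B.card : ℝ) ^ 2 * Real.sqrt p := by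
    have h10 : (B.card : ℝ) * (B.card * (C * Real.sqrt p)) = C * (B.card : ℝ) ^ 2 * Real.sqrt p := by ring
    rw [h3] at h2
    rw [h6, h10] at h5
    linarith
  exact h1.trans (mul_le_mul_of_nonneg_left h9 (Nat.cast_nonneg _))

end HYG
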